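import Pool.Agent.NHW.AdI
import Pool.Agent.COR.CorA

/-!
# NHW/CorA: a thick torus is determined by its core up to framing and mirror image, with an abstract relation
-/

open scoped Manifold ContDiff Topology
open Set Filter
open Complex (I)
open Pool.Agent.RSG (E4 ex cj ex_add ex_zero ex_norm ex_smooth ex_add_int)
open Pool.Agent.RBM (ThickT TwinP OnT)
open Pool.Agent.COR

namespace Pool.Agent.NHW

section
variable {EP : Type*} [NormedAddCommGroup EP] [NormedSpace ℝ EP] {HP : Type*} [TopologicalSpace HP]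
  {IP : ModelWithCorners ℝ EP HP} {P : Type*} [TopologicalSpace P] [ChartedSpace HP P]

theorem core_posR [T2Space P] {R : (ℝ × ℂ × ℝ → P) → (ℝ × ℂ × ℝ → P) → Prop} (T : Tor IP R) {a : ℝ → P → P} (ha : PTH.Act IP a) {κ κ' : ℝ × ℂ × ℝ → P}
    (hκ : ThickT IP κ) (heq : Equi a κ) (hκ' : ThickT IP κ') (heq' : Equi a κ')
    (hcore : ∀ l, κ' (l, 0, 0) = κ (l, 0, 0)) {l₀ : ℝ} (hpos : PosAt κ κ' l₀) {φ : ℝ → ℝ}
    (hφ : ContDiff ℝ ∞ φ) (hφ1 : ∀ l, φ (l + 1) = φ l + 1) :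
    ∃ k : ℤ, R κ (fun q => κ' (q.1, q.2.1 * ex (k * φ q.1), q.2.2)) := by
  obtain ⟨ε₁, hε₁, lam, om, tau, hlam, hom, htau, plam, pom, ptau, h0, h1, h2, -⟩ :=
    exists_lft (U := univ) (ς := fun _ => 1) ha hκ heq heq' hκ'.perl isOpen_univ contDiff_const
      (fun _ => rfl) (subset_univ _) (fun l _ => hκ'.loc l 0 0 (by simp)) (fun l _ => hcore l)
      (R := 1 / 2) (by norm_num)
  have hrep : ∀ l v t, ‖v‖ ≤ ε₁ → ‖om (l, v)‖ < 1 ∧
      κ' (l, v, t) = κ (lam (l, v), om (l, v), t + tau (l, v)) :=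
    fun l v t hv => (h1 l rfl v t hv).2
  have hp0 : 0 < dt (dv om l₀) := CorA_pos_of hκ hpos hε₁ hrep
  have hpall : ∀ l, 0 < dt (dv om l) := by
    intro l
    by_contra hl
    obtain ⟨l', hl'⟩ := mem_range_of_exists_le_of_exists_ge (CorA_cont hom) ⟨l, not_lt.1 hl⟩
      ⟨l₀, hp0.le⟩
    exact CorA_dt_ne (h2 l' rfl) hl'
  obtain ⟨k, A, b, hA, hb, pA, pb, hb1, hAb⟩ := exists_log_loop hom pom hpall hφ hφ1
  refine ⟨k, ?_⟩
  -- twisted data
  let tw : ℝ × ℂ → ℝ × ℂ := fun q => (q.1, q.2 * ex (k * φ q.1))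
  have htw : ContDiff ℝ ∞ tw := by
    refine contDiff_fst.prodMk (contDiff_snd.mul (ex_smooth.comp ?_))
    exact contDiff_const.mul (hφ.comp contDiff_fst)
  have twp : ∀ l v, tw (l + 1, v) = (l + 1, (tw (l, v)).2) := by
    intro l v
    show (l + 1, v * ex (k * φ (l + 1))) = (l + 1, v * ex (k * φ l))
    rw [hφ1, show (k : ℝ) * (φ l + 1) = k * φ l + (k : ℤ) by push_cast; ring, ex_add_int]
  have tw0 : ∀ l, tw (l, 0) = (l, 0) := by
    intro l
    show (l, (0 : ℂ) * ex (k * φ l)) = (l, 0)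
    rw [zero_mul]
  let E : ℝ × ℂ → ℂ := fun q => om (tw q) - lin (A q.1) (b q.1) q.2
  have hlin : ContDiff ℝ ∞ (fun q : ℝ × ℂ => lin (A q.1) (b q.1) q.2) := by
    unfold lin
    have e1 : ContDiff ℝ ∞ (fun q : ℝ × ℂ => Complex.exp (A q.1)) :=
      Complex.contDiff_exp.comp (hA.comp contDiff_fst)
    have e2 : ContDiff ℝ ∞ (fun q : ℝ × ℂ => (starRingEnd ℂ) q.2) :=
      (Complex.conjCLE.contDiff).comp contDiff_snd
    exact e1.mul (contDiff_snd.add ((hb.comp contDiff_fst).mul e2))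
  have hE : ContDiff ℝ ∞ E := (hom.comp htw).sub hlin
  have hEp : ∀ l v, E (l + 1, v) = E (l, v) := by
    intro l v
    show om (tw (l + 1, v)) - lin (A (l + 1)) (b (l + 1)) v = om (tw (l, v)) - lin (A l) (b l) v
    rw [twp, pom, pA, pb]
  have hlp : ∀ l v, lam (tw (l + 1, v)) = lam (tw (l, v)) + 1 := by
    intro l v
    rw [twp, plam]
  have htp : ∀ l v, tau (tw (l + 1, v)) = tau (tw (l, v)) := by
    intro l v
    rw [twp, ptau]
  have hlin0 : ∀ a b : ℂ, lin a b 0 = 0 := by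
    intro a b
    simp [lin]
  have hE0 : ∀ l, E (l, 0) = 0 := by
    intro l
    show om (tw (l, 0)) - lin (A l) (b l) 0 = 0
    rw [tw0, (h0 l).2.1, hlin0, sub_zero]
  have hE1 : ∀ l, dv E l = 0 := by
    intro l
    have c1 : HasFDerivAt (fun v : ℂ => v * ex (k * φ l))
        (ContinuousLinearMap.mul ℝ ℂ (ex (k * φ l))) 0 := by
      have := (ContinuousLinearMap.mul ℝ ℂ (ex (k * φ l))).hasFDerivAt (x := (0 : ℂ))
      refine this.congr_of_eventuallyEq (Eventually.of_forall fun v => ?_)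
      simp [mul_comm]
    have c2 : HasFDerivAt (fun v : ℂ => om (l, v * ex (k * φ l)))
        ((dv om l).comp (ContinuousLinearMap.mul ℝ ℂ (ex (k * φ l)))) 0 := by
      have d1 : HasFDerivAt (fun v : ℂ => om (l, v)) (dv om l) ((0 : ℂ) * ex (k * φ l)) := by
        rw [zero_mul, CorA_dv_eq hom]
        exact CorA_dv hom l 0
      exact d1.comp (0 : ℂ) c1
    let Ll : ℂ →L[ℝ] ℂ := (ContinuousLinearMap.mul ℝ ℂ (Complex.exp (A l))).comp
      (ContinuousLinearMap.id ℝ ℂ + (ContinuousLinearMap.mul ℝ ℂ (b l)).comp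
        (Complex.conjCLE : ℂ →L[ℝ] ℂ))
    have hLl : ∀ w, Ll w = lin (A l) (b l) w := by
      intro w
      simp [Ll, lin]
      ring
    have c3 : HasFDerivAt (fun v : ℂ => lin (A l) (b l) v) Ll 0 := by
      refine (Ll.hasFDerivAt (x := (0 : ℂ))).congr_of_eventuallyEq
        (Eventually.of_forall fun v => (hLl v).symm)
    have c4 : HasFDerivAt (fun v : ℂ => E (l, v))
        ((dv om l).comp (ContinuousLinearMap.mul ℝ ℂ (ex (k * φ l))) - Ll) 0 := c2.sub c3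
    have : dv E l = (dv om l).comp (ContinuousLinearMap.mul ℝ ℂ (ex (k * φ l))) - Ll := c4.fderiv
    rw [this]
    refine ContinuousLinearMap.ext fun w => ?_
    show dv om l (ex (k * φ l) * w) - Ll w = 0
    rw [hLl, mul_comm, hAb, sub_self]
  obtain ⟨ε₂, hε₂, H, hH, hH', Hl, Ht, hHs, hHid, -⟩ := exists_germ (lam := fun q => lam (tw q))
    (tau := fun q => tau (tw q)) hA hb hE (hlam.comp htw) (htau.comp htw) pA pb hEp hlp htp hb1
    hE0 hE1 (fun l => by show lam (tw (l, 0)) = l; rw [tw0]; exact (h0 l).1)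
    (fun l => by show tau (tw (l, 0)) = 0; rw [tw0]; exact (h0 l).2.2) (R := 1 / 2) (by norm_num)
  obtain ⟨F, hF, hFκ, hFo, -⟩ := kap_move hκ hH hH' Hl Ht (R := 1 / 2) (by norm_num) hHid
  have hη : 0 < min (min ε₁ ε₂) 1 := lt_min (lt_min hε₁ hε₂) one_pos
  refine T.trans (T.diffeo F hF (kap_csup hκ (by norm_num) hHid hFκ hFo)) (T.germ hη (ThickT_diffeo F hF hκ) (CorA_tw hκ' k hφ hφ1) ?_)
  intro l v t hv
  have hv1 : ‖v‖ < 1 := lt_of_lt_of_le hv (min_le_right _ _)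
  have hv2 : ‖v‖ ≤ ε₂ := (lt_of_lt_of_le hv ((min_le_left _ _).trans (min_le_right _ _))).le
  have hv3 : ‖v * ex (k * φ l)‖ ≤ ε₁ := by
    rw [norm_mul, ex_norm, mul_one]
    exact (lt_of_lt_of_le hv ((min_le_left _ _).trans (min_le_left _ _))).le
  show κ' (l, v * ex (k * φ l), t) = F (κ (l, v, t))
  rw [hFκ l v t hv1, hHs l v t hv2, (hrep l _ t hv3).2]
  have : lin (A l) (b l) v + E (l, v) = om (tw (l, v)) := by
    show lin (A l) (b l) v + (om (tw (l, v)) - lin (A l) (b l) v) = om (tw (l, v))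
    ring
  rw [this]

theorem core_eqR [T2Space P] {R : (ℝ × ℂ × ℝ → P) → (ℝ × ℂ × ℝ → P) → Prop} (T : Tor IP R) {a : ℝ → P → P} (ha : PTH.Act IP a) {κ κ' : ℝ × ℂ × ℝ → P}
    (hκ : ThickT IP κ) (heq : Equi a κ) (hκ' : ThickT IP κ') (heq' : Equi a κ')
    (hcore : ∀ l, κ' (l, 0, 0) = κ (l, 0, 0)) {φ : ℝ → ℝ}
    (hφ : ContDiff ℝ ∞ φ) (hφ1 : ∀ l, φ (l + 1) = φ l + 1) :
    ∃ (k : ℤ) (σ : ℝ), (σ = 1 ∨ σ = -1) ∧
      R κ (fun q => κ' (q.1, cj σ (q.2.1 * ex (k * φ q.1)), q.2.2)) := by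
  obtain ⟨ε₁, hε₁, lam, om, tau, hlam, hom, htau, plam, pom, ptau, h0, h1, h2, -⟩ :=
    exists_lft (U := univ) (ς := fun _ => 1) ha hκ heq heq' hκ'.perl isOpen_univ contDiff_const
      (fun _ => rfl) (subset_univ _) (fun l _ => hκ'.loc l 0 0 (by simp)) (fun l _ => hcore l)
      (R := 1 / 2) (by norm_num)
  have hrep : ∀ l v t, ‖v‖ ≤ ε₁ → κ' (l, v, t) = κ (lam (l, v), om (l, v), t + tau (l, v)) :=
    fun l v t hv => (h1 l rfl v t hv).2.2
  have hne : dt (dv om 0) ≠ 0 := CorA_dt_ne (h2 0 rfl)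
  have hcj1 : ∀ v, cj 1 v = v := by
    intro v
    apply Complex.ext <;> simp [cj]
  have hcjm : ∀ v, cj (-1) v = (starRingEnd ℂ) v := by
    intro v
    apply Complex.ext <;> simp [cj]
  rcases lt_or_gt_of_ne hne with hneg | hpos
  · -- mirror image
    let κm : ℝ × ℂ × ℝ → P := fun q => κ' (q.1, (starRingEnd ℂ) q.2.1, q.2.2)
    have hκm : ThickT IP κm := CorA_mir hκ'
    have heqm : Equi a κm := fun l v t => heq' l ((starRingEnd ℂ) v) t
    have hcorem : ∀ l, κm (l, 0, 0) = κ (l, 0, 0) := by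
      intro l
      show κ' (l, (starRingEnd ℂ) 0, 0) = κ (l, 0, 0)
      rw [map_zero, hcore]
    let cc : ℝ × ℂ → ℝ × ℂ := fun q => (q.1, (starRingEnd ℂ) q.2)
    have hcc : ContDiff ℝ ∞ cc := contDiff_fst.prodMk ((Complex.conjCLE.contDiff).comp contDiff_snd)
    have cc0 : ∀ l, cc (l, 0) = (l, 0) := by
      intro l
      show (l, (starRingEnd ℂ) 0) = (l, 0)
      rw [map_zero]
    have hdv : dv (fun q => om (cc q)) 0 = (dv om 0).comp (Complex.conjCLE : ℂ →L[ℝ] ℂ) := by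
      have d1 : HasFDerivAt (fun v : ℂ => om (0, v)) (dv om 0) ((Complex.conjCLE : ℂ →L[ℝ] ℂ) 0) := by
        rw [map_zero, CorA_dv_eq hom]
        exact CorA_dv hom 0 0
      exact (d1.comp (0 : ℂ) (Complex.conjCLE : ℂ →L[ℝ] ℂ).hasFDerivAt).fderiv
    have hdt : 0 < dt (dv (fun q => om (cc q)) 0) := by
      rw [hdv]
      have : dt ((dv om 0).comp (Complex.conjCLE : ℂ →L[ℝ] ℂ)) = - dt (dv om 0) := by
        unfold dt
        have e1 : ((dv om 0).comp (Complex.conjCLE : ℂ →L[ℝ] ℂ)) 1 = dv om 0 1 := by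
          show dv om 0 ((starRingEnd ℂ) 1) = dv om 0 1
          rw [map_one]
        have e2 : ((dv om 0).comp (Complex.conjCLE : ℂ →L[ℝ] ℂ)) I = - dv om 0 I := by
          show dv om 0 ((starRingEnd ℂ) I) = - dv om 0 I
          rw [Complex.conj_I, map_neg]
        rw [e1, e2, mul_neg, Complex.neg_im]
      rw [this]
      linarith
    have hpm : PosAt κ κm 0 := by
      refine CorA_posAt hε₁ (hlam.comp hcc) (hom.comp hcc) (htau.comp hcc) ?_ ?_ hdt
      · show lam (cc (0, 0)) = 0 ∧ om (cc (0, 0)) = 0 ∧ tau (cc (0, 0)) = 0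
        rw [cc0]
        exact h0 0
      · intro l v t hv
        exact hrep l ((starRingEnd ℂ) v) t (by rw [RCLike.norm_conj]; exact hv)
    obtain ⟨k, hk⟩ := core_posR T ha hκ heq hκm heqm hcorem hpm hφ hφ1
    refine ⟨k, -1, Or.inr rfl, ?_⟩
    have := hk
    have e : (fun q : ℝ × ℂ × ℝ => κ' (q.1, cj (-1) (q.2.1 * ex (k * φ q.1)), q.2.2)) =
        fun q => κm (q.1, q.2.1 * ex (k * φ q.1), q.2.2) := by
      funext q
      rw [hcjm]
    rw [e]
    exact this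
  · have hpm : PosAt κ κ' 0 := CorA_posAt hε₁ hlam hom htau (h0 0) hrep hpos
    obtain ⟨k, hk⟩ := core_posR T ha hκ heq hκ' heq' hcore hpm hφ hφ1
    refine ⟨k, 1, Or.inl rfl, ?_⟩
    have := hk
    have e : (fun q : ℝ × ℂ × ℝ => κ' (q.1, cj 1 (q.2.1 * ex (k * φ q.1)), q.2.2)) =
        fun q => κ' (q.1, q.2.1 * ex (k * φ q.1), q.2.2) := by
      funext q
      rw [hcj1]
    rw [e]
    exact this

end

end Pool.Agent.NHW
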