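import Pool.Agent.NHW.RibN
import Pool.Agent.NHB.ToN
import Pool.Agent.NHB.Ori

/-!
# NHW/Top: an equivariant thick torus of `N × Circle` comes from a thick knot of `N`; the bridge with an abstract relation

`bridgeR`: if the core of the thick knot `κ` is related by `LEqN` to `K'` then `K'` is the core of a thick knot `κ'`, `prd κ'` is
`R`-equivalent to `prd κ`, and the cores of `κ`, `κ'` are freely homotopic (as oriented curves).
-/

open scoped Manifold ContDiff Topology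
open Set Filter
open Complex (I)
open Pool.Agent.CSG (stp)
open Pool.Agent.RSG (E3 E4 S4 ex cj Thick OnKnot IsRollGluck)
open Pool.Agent.RBM (ThickT TwinP OnT Box Bundle frc)
open Pool.Agent.COR (Equi EquiB)
open Pool.Agent.RBN (IN circ prd pb circ_add circ_zero circ_int circ_eq circ_per circ_ld circ_smooth circ_surj Cir_arg)
open Pool.Agent.NHP (E LEqN core)
open Pool.Agent.NHB (rot kk uu ToN_eq ToN_thick ToN_eta ToN_W ToN_W_smooth ToN_W_out ToN_W_in prd_equi prd_core Orn orP_of_orn)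

namespace Pool.Agent.NHW

section
variable {N : Type*} [TopologicalSpace N] [ChartedSpace E3 N]

/-- **An equivariant thick torus with core `(c, 1)` is, up to the relation `R`, the product of a thick knot with core `c`.** -/
theorem exists_knot [T2Space N] {R : (ℝ × ℂ × ℝ → N × Circle) → (ℝ × ℂ × ℝ → N × Circle) → Prop} (T : Tor IN R) {κ : ℝ × ℂ × ℝ → N × Circle} (hκ : ThickT IN κ) (he : Equi rot κ) {c : ℝ → N}
    (hc : ∀ l, κ (l, 0, 0) = (c l, 1)) :
    Thick (kk κ) ∧ (∀ l, kk κ (l, 0) = c l) ∧ R κ (prd (kk κ)) := by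
  have hk := ToN_thick hκ he
  have hkc : ∀ l, kk κ (l, 0) = c l := by
    intro l
    show (κ (l, 0, 0)).1 = c l
    rw [hc]
  have hu : ∀ l, uu κ (l, 0) = 1 := by
    intro l
    show (κ (l, 0, 0)).2 = 1
    rw [hc]
  refine ⟨hk, hkc, ?_⟩
  obtain ⟨η, h0, h1, hη⟩ := ToN_eta hκ hu
  have hW := ToN_W_smooth hκ h0 h1 hη
  have hperu : ∀ l v, uu κ (l + 1, v) = uu κ (l, v) := by
    intro l v
    show (κ (l + 1, v, 0)).2 = (κ (l, v, 0)).2
    rw [hκ.perl]
  have hWper : ∀ l v, ToN_W κ η (l + 1, v) = ToN_W κ η (l, v) := by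
    intro l v
    unfold ToN_W
    rw [hperu]
  let H : Equiv.Perm (ℝ × ℂ × ℝ) :=
    { toFun := fun q => (q.1, q.2.1, q.2.2 - ToN_W κ η (q.1, q.2.1))
      invFun := fun q => (q.1, q.2.1, q.2.2 + ToN_W κ η (q.1, q.2.1))
      left_inv := fun q => by simp
      right_inv := fun q => by simp }
  have hp : ContDiff ℝ ∞ fun q : ℝ × ℂ × ℝ => ((q.1, q.2.1) : ℝ × ℂ) := by fun_prop
  have hWp : ContDiff ℝ ∞ fun q : ℝ × ℂ × ℝ => ToN_W κ η (q.1, q.2.1) := hW.comp hp
  have hH : ContDiff ℝ ∞ H :=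
    contDiff_fst.prodMk ((contDiff_fst.comp contDiff_snd).prodMk ((contDiff_snd.comp contDiff_snd).sub hWp))
  have hH' : ContDiff ℝ ∞ H.symm :=
    contDiff_fst.prodMk ((contDiff_fst.comp contDiff_snd).prodMk ((contDiff_snd.comp contDiff_snd).add hWp))
  obtain ⟨F, hF1, hF2, hF3, -⟩ := COR.kap_move hκ hH hH' (R := η / 2) (fun l v t => by
      show ((l + 1, v, t - ToN_W κ η (l + 1, v)) : ℝ × ℂ × ℝ) = (l, v, t - ToN_W κ η (l, v)) + (1, 0, 0)
      rw [hWper]
      simp) (fun l v t u => by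
      show ((l, v, t + u - ToN_W κ η (l, v)) : ℝ × ℂ × ℝ) = (l, v, t - ToN_W κ η (l, v)) + (0, 0, u)
      simp
      ring) (by linarith) (fun l v t hv => by
      show ((l, v, t - ToN_W κ η (l, v)) : ℝ × ℂ × ℝ) = (l, v, t)
      rw [ToN_W_out κ h0 hv, sub_zero])
  have hcs : CSup F := kap_csup hκ (r := η / 2) (by linarith) (H := H) (fun l v t hv => by
      show ((l, v, t - ToN_W κ η (l, v)) : ℝ × ℂ × ℝ) = (l, v, t)
      rw [ToN_W_out κ h0 hv, sub_zero]) hF2 hF3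
  refine T.trans (T.diffeo F hF1 hcs) (T.germ (η := η / 4) (by positivity) (COR.ThickT_diffeo F hF1 hκ)
    (RBN.prd_thick hk) ?_)
  intro l v t hv
  show prd (kk κ) (l, v, t) = F (κ (l, v, t))
  rw [hF2 l v t (by linarith)]
  show ((kk κ (l, v), circ t) : N × Circle) = κ (l, v, t - ToN_W κ η (l, v))
  rw [ToN_eq he]
  refine Prod.ext rfl ?_
  show circ t = uu κ (l, v) * circ (t - ToN_W κ η (l, v))
  rw [← ToN_W_in κ h0 hv, ← circ_add]
  congr 1
  ring

theorem isC_core [T2Space N] {R : (ℝ × ℂ × ℝ → N × Circle) → (ℝ × ℂ × ℝ → N × Circle) → Prop} (T : Tor IN R) {κ : ℝ × ℂ → N}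
    (hκ : Thick κ) : IsC R (prd κ) (fun l => κ (l, 0)) (core κ) := by
  have hT := RBN.prd_thick hκ
  have hc : ∀ l, prd κ (l, 0, 0) = (κ (l, 0), 1) := fun l => prd_core l
  refine ⟨fun l => κ (l, 0), rfl, HmC.refl (NHB.StrN_csmooth hT hc).continuous (fun l => hκ.per l 0), prd κ, hT, prd_equi κ,
    fun l => prd_core l, T.rfl' _⟩

/-- **The bridge, with an abstract relation.** -/
theorem bridgeR [T2Space N] [IsManifold (𝓡 3) ∞ N] {R : (ℝ × ℂ × ℝ → N × Circle) → (ℝ × ℂ × ℝ → N × Circle) → Prop}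
    (T : Tor IN R) (hO : ∃ o : (E → N) → E → ℝ, Orn o) {κ : ℝ × ℂ → N} (hκ : Thick κ) {K' : Set N}
    (h : LEqN (core κ) K') :
    ∃ κ' : ℝ × ℂ → N, Thick κ' ∧ core κ' = K' ∧ HmC (fun l => κ (l, 0)) (fun l => κ' (l, 0)) ∧ R (prd κ) (prd κ') := by
  obtain ⟨o, ho⟩ := hO
  obtain ⟨c, hr, hh, κ₂, hT, he, hc, hS⟩ := (isC_LEqN T (orP_of_orn ho) h).1 (isC_core T hκ)
  obtain ⟨h1, h2, h3⟩ := exists_knot T hT he hc
  refine ⟨kk κ₂, h1, ?_, ?_, T.trans hS h3⟩
  · rw [← hr]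
    show range (fun l => kk κ₂ (l, 0)) = range c
    rw [funext h2]
  · rw [funext h2]
    exact hh

end

end Pool.Agent.NHW
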