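import Pool.Agent.NHW.Ins
import Pool.Agent.NHW.Top
import Pool.Agent.NHW.CorA
import Pool.Agent.NHB.RepN
import Pool.Agent.NHJ.Main
import Pool.Agent.COR.Frm

/-!
# NHW/End: the bridge in a 4-manifold which contains `N × Circle`

`W` is a Hausdorff 4-manifold, `ι : N × Circle → W` an open embedding, `κ`, `κ'` are thick knots of `N` with freely homotopic cores which are
related by `LEqN`.  Then the tori `ι (κ × Circle)`, `ι (κ' × Circle)` carry the same 4-manifolds, for all `n` and all `j`, if `κ` is not freely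
homotopic to its reverse, or `W` has a reflection, or `n = 0`.
-/

open scoped Manifold ContDiff Topology
open Set Filter
open Complex (I)
open Pool.Agent.RSG (E3 E4 S4 ex cj Thick)
open Pool.Agent.RBM (ThickT TwinP OnT)
open Pool.Agent.COR (Equi)
open Pool.Agent.RBN (IN circ prd circ_zero)
open Pool.Agent.NHP (E LEqN core)
open Pool.Agent.NHB (rot rot_act prd_equi prd_core Orn Same circ_neg)

namespace Pool.Agent.NHW

universe v

section
variable {N : Type*} [TopologicalSpace N] [ChartedSpace E3 N]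
  {EW : Type*} [NormedAddCommGroup EW] [NormedSpace ℝ EW] {HW : Type*} [TopologicalSpace HW]
  {IW : ModelWithCorners ℝ EW HW} {W : Type*} [TopologicalSpace W] [ChartedSpace HW W]
  {ι : N × Circle → W}

/-- the reversed curves are freely homotopic -/
theorem HmC.rev {N : Type*} [TopologicalSpace N] {c c' : ℝ → N} (h : HmC c c') :
    HmC (fun l => c (-l)) (fun l => c' (-l)) := by
  obtain ⟨H, h1, h2, h3, h4⟩ := h
  refine ⟨fun q => H (q.1, -q.2), h1.comp (by fun_prop), fun s l => ?_, fun l => h3 _, fun l => h4 _⟩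
  show H (s, -(l + 1)) = H (s, -l)
  rw [← h2]
  congr 2
  ring

/-- `W` has a reflection: a diffeomorphism which acts on `N × Circle` by the inversion of the circle -/
def Refl (IW : ModelWithCorners ℝ EW HW) (ι : N × Circle → W) : Prop :=
  ∃ Φ : Equiv.Perm W, (∀ w, IsLocalDiffeomorphAt IW IW ∞ Φ w) ∧ ∀ (x : N) (u : Circle), Φ (ι (x, u)) = ι (x, u⁻¹)

/-- the symmetry given by a reflection -/
theorem flipW [T2Space W] (hι : OEmb IW IN ι) (hR : Refl IW ι) {κ : ℝ × ℂ → N} (hκ : Thick κ) {n j : ℤ} {X : Type v}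
    [TopologicalSpace X] [ChartedSpace E4 X] (h : Nonempty (TwinP IW (ι ∘ prd κ) n j X)) :
    Nonempty (TwinP IW (ι ∘ prd κ) (-n) (1 - j) X) := by
  obtain ⟨D⟩ := h
  obtain ⟨Φ, hΦ, hΦι⟩ := hR
  have hT := hι.thick (RBN.prd_thick hκ)
  obtain ⟨D1⟩ := KNH.rev_twin D
  obtain ⟨D2⟩ := COR.mirror0 (KNH.rev_thick hT) D1
  obtain ⟨D3⟩ := NHB.rev_all D2
  have h1 := COR.TwinP_diffeo Φ hΦ D3
  have h2 : (fun q : ℝ × ℂ × ℝ => Φ
      ((fun q : ℝ × ℂ × ℝ => (fun q : ℝ × ℂ × ℝ => (fun q : ℝ × ℂ × ℝ => (ι ∘ prd κ) (-q.1, q.2)) (q.1, (starRingEnd ℂ) q.2.1, q.2.2))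
        (-q.1, (starRingEnd ℂ) q.2.1, -q.2.2)) q)) = ι ∘ prd κ := by
    funext q
    show Φ (ι (κ (- -q.1, (starRingEnd ℂ) ((starRingEnd ℂ) q.2.1)), circ (-q.2.2))) = ι (κ (q.1, q.2.1), circ q.2.2)
    rw [hΦι, circ_neg, neg_neg, Complex.conj_conj, inv_inv]
  rwa [h2] at h1

/-- thick knots with the same core set -/
theorem carry_imageW [T2Space N] [T2Space W] (hι : OEmb IW IN ι) {κ κ' : ℝ × ℂ → N} (hκ : Thick κ) (hκ' : Thick κ')
    (hr : core κ = core κ') (hh : HmC (fun l => κ (l, 0)) fun l => κ' (l, 0)) {n : ℤ}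
    (hRev : n = 0 ∨ (¬ HmC (fun l => κ (l, 0)) (fun l => κ (-l, 0))) ∨ Refl IW ι) {X : Type v} [TopologicalSpace X]
    [ChartedSpace E4 X] [T2Space X] {j : ℤ} (h : Nonempty (TwinP IW (ι ∘ prd κ) n j X)) (j' : ℤ) :
    Nonempty (TwinP IW (ι ∘ prd κ') n j' X) := by
  have T := tor_ins.{v} hι
  have hT := RBN.prd_thick hκ
  have hT' := RBN.prd_thick hκ'
  obtain ⟨g, ε, hε, hg, hg1, hg', hcg⟩ := NHB.same_image hT hT' (c := fun l => κ (l, 0)) (c' := fun l => κ' (l, 0))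
    (fun l => prd_core l) (fun l => prd_core l) hr
  have key : ∀ (κ₁ : ℝ × ℂ → N) (m i : ℤ), ThickT IN (prd κ₁) → (∀ l, κ' (l, 0) = κ₁ (g l, 0)) →
      Nonempty (TwinP IW (ι ∘ prd κ₁) m i X) → ∀ j' : ℤ, Nonempty (TwinP IW (ι ∘ prd κ') m j' X) := by
    intro κ₁ m i h3 h2 hD j'
    have h4 := T.rep h3 hg hg1 hg'
    have heq : Equi rot fun q : ℝ × ℂ × ℝ => prd κ₁ (g q.1, q.2) := fun l v t => prd_equi κ₁ (g l) v t
    obtain ⟨k, σ, hσ, hk⟩ := core_eqR T rot_act (COR.thick_rep h3 hg hg1 hg') heq hT' (prd_equi κ') (fun l => by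
      show ((κ' (l, 0), circ 0) : N × Circle) = (κ₁ (g l, 0), circ 0)
      rw [h2]) (φ := fun l => l) contDiff_id (fun l => rfl)
    obtain ⟨D⟩ := (T.trans h4 hk X m i).1 hD
    have hTW := hι.thick hT'
    rcases hσ with rfl | rfl
    · have e : (ι ∘ fun q : ℝ × ℂ × ℝ => prd κ' (q.1, cj 1 (q.2.1 * ex (k * q.1)), q.2.2)) =
          fun q => (ι ∘ prd κ') (q.1, q.2.1 * ex (k * q.1), q.2.2) := by
        funext q
        show ι (prd κ' (q.1, cj 1 (q.2.1 * ex (k * q.1)), q.2.2)) = ι (prd κ' (q.1, q.2.1 * ex (k * q.1), q.2.2))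
        rw [COR.CorB_cj_one]
      rw [e] at D
      obtain ⟨D1⟩ := COR.frame hTW k D
      exact NHJ.twin_all hTW D1 j'
    · have hb := COR.CorB_thick hTW
      have e : (ι ∘ fun q : ℝ × ℂ × ℝ => prd κ' (q.1, cj (-1) (q.2.1 * ex (k * q.1)), q.2.2)) =
          fun q => (fun q : ℝ × ℂ × ℝ => (ι ∘ prd κ') (q.1, (starRingEnd ℂ) q.2.1, q.2.2))
            (q.1, q.2.1 * ex (k * q.1), q.2.2) := by
        funext q
        show ι (prd κ' (q.1, cj (-1) (q.2.1 * ex (k * q.1)), q.2.2)) =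
          ι (prd κ' (q.1, (starRingEnd ℂ) (q.2.1 * ex (k * q.1)), q.2.2))
        rw [COR.CorB_cj_neg]
      rw [e] at D
      obtain ⟨D1⟩ := COR.frame hb k D
      obtain ⟨D2⟩ := COR.mirror0 hb D1
      have e2 : (fun q : ℝ × ℂ × ℝ => (fun q : ℝ × ℂ × ℝ => (ι ∘ prd κ') (q.1, (starRingEnd ℂ) q.2.1, q.2.2))
          (q.1, (starRingEnd ℂ) q.2.1, q.2.2)) = ι ∘ prd κ' := by
        funext q
        show (ι ∘ prd κ') (q.1, (starRingEnd ℂ) ((starRingEnd ℂ) q.2.1), q.2.2) = (ι ∘ prd κ') q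
        rw [Complex.conj_conj]
      rw [e2] at D2
      exact NHJ.twin_all hTW D2 j'
  rcases hε with rfl | rfl
  · exact key κ n j hT (fun l => by
      have := hcg l
      rwa [one_mul] at this) h j'
  · have hcg' : ∀ l, κ' (l, 0) = κ (-g l, 0) := by
      intro l
      have := hcg l
      rwa [neg_one_mul] at this
    rcases hRev with hRev | hRev | hRev
    · subst hRev
      have h1 : ThickT IN (prd fun q => κ (-q.1, q.2)) := KNH.rev_thick hT
      obtain ⟨D⟩ := h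
      have h6 : Nonempty (TwinP IW (ι ∘ prd fun q => κ (-q.1, q.2)) (-0) j X) := KNH.rev_twin D
      rw [neg_zero] at h6
      exact key (fun q => κ (-q.1, q.2)) 0 j h1 hcg' h6 j'
    · exfalso
      apply hRev
      have hc : Continuous fun l : ℝ => κ (-l, 0) := by
        have h0 := (NHB.StrN_csmooth hT (c := fun l => κ (l, 0)) (fun l => prd_core l)).continuous
        exact h0.comp continuous_neg
      have hp : ∀ l : ℝ, κ (-(l + 1), 0) = κ (-l, 0) := by
        intro l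
        rw [← hκ.per (-(l + 1)) 0]
        congr 2
        ring
      have h5 := hmC_rep (c := fun l => κ (-l, 0)) hc hp hg.continuous hg1
      have e : (fun l => κ' (l, 0)) = fun l => κ (-g l, 0) := funext hcg'
      rw [e] at hh
      exact hh.trans h5.symm
    · have h1 : ThickT IN (prd fun q => κ (-q.1, q.2)) := KNH.rev_thick hT
      obtain ⟨D⟩ := h
      have h6 : Nonempty (TwinP IW (ι ∘ prd fun q => κ (-q.1, q.2)) (-n) j X) := KNH.rev_twin D
      have h7 := key (fun q => κ (-q.1, q.2)) (-n) j h1 hcg' h6 (1 - j')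
      have h8 := flipW hι hRev hκ' h7
      rwa [neg_neg, sub_sub_cancel] at h8

/-- **The bridge in a 4-manifold which contains `N × Circle`.** -/
theorem bridge_twoW [T2Space N] [IsManifold (𝓡 3) ∞ N] [T2Space W] (hι : OEmb IW IN ι)
    (hO : ∃ o : (E → N) → E → ℝ, Orn o) {κ κ' : ℝ × ℂ → N} (hκ : Thick κ) (hκ' : Thick κ')
    (hL : LEqN (core κ) (core κ')) (hh : HmC (fun l => κ (l, 0)) fun l => κ' (l, 0)) {n : ℤ}
    (hRev : n = 0 ∨ (¬ HmC (fun l => κ (l, 0)) (fun l => κ (-l, 0))) ∨ Refl IW ι) {X : Type v} [TopologicalSpace X]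
    [ChartedSpace E4 X] [T2Space X] {j : ℤ} (h : Nonempty (TwinP IW (ι ∘ prd κ) n j X)) (j' : ℤ) :
    Nonempty (TwinP IW (ι ∘ prd κ') n j' X) := by
  obtain ⟨κ₁, h1, h2, h3, h4⟩ := bridgeR (tor_ins.{v} hι) hO hκ hL
  refine carry_imageW hι h1 hκ' h2 (h3.symm.trans hh) ?_ ((h4 X n j).1 h) j'
  rcases hRev with hRev | hRev | hRev
  · exact Or.inl hRev
  · refine Or.inr (Or.inl ?_)
    intro h5
    exact hRev ((h3.trans h5).trans h3.rev.symm)
  · exact Or.inr (Or.inr hRev)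

end

end Pool.Agent.NHW
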