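import Pool.Agent.NHB.Defs
import Pool.Agent.RBM.Defs
import Pool.Agent.RBH.Defs

/-!
# NHW/Rel: abstract equivalence relations on thick tori

`Tor R`: `R` is an equivalence relation on maps `ℝ × ℂ × ℝ → P` which is invariant under the moves of the bridge: compactly supported
diffeomorphisms of `P`, change of the radius (germ), reparametrisation, 4-moves, homotopies of a ribbon.
`HmC c c'`: the closed curves `c`, `c'` are freely homotopic.
-/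

open scoped Manifold ContDiff Topology
open Set Filter
open Complex (I)
open Pool.Agent.RSG (E3 E4 S4 ex cj Thick)
open Pool.Agent.RBM (ThickT TwinP OnT Box Bundle MsDo)
open Pool.Agent.COR (Equi EquiB)
open Pool.Agent.RBN (IN circ prd)
open Pool.Agent.NHB (rot)

namespace Pool.Agent.NHW

/-- `F` is the identity off a compact set -/
def CSup {P : Type*} [TopologicalSpace P] (F : P → P) : Prop := ∃ C : Set P, IsCompact C ∧ ∀ p, p ∉ C → F p = p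

section
variable {EP : Type*} [NormedAddCommGroup EP] [NormedSpace ℝ EP] {HP : Type*} [TopologicalSpace HP]
  (IP : ModelWithCorners ℝ EP HP) {P : Type*} [TopologicalSpace P] [ChartedSpace HP P]

/-- equivalence relation on thick tori, invariant under the moves -/
structure Tor (R : (ℝ × ℂ × ℝ → P) → (ℝ × ℂ × ℝ → P) → Prop) : Prop where
  rfl' : ∀ κ, R κ κ
  symm : ∀ {κ κ'}, R κ κ' → R κ' κ
  trans : ∀ {κ κ' κ''}, R κ κ' → R κ' κ'' → R κ κ''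
  diffeo : ∀ {κ : ℝ × ℂ × ℝ → P} (F : Equiv.Perm P), (∀ p, IsLocalDiffeomorphAt IP IP ∞ F p) → CSup F → R κ fun q => F (κ q)
  germ : ∀ {κ κ' : ℝ × ℂ × ℝ → P} {η : ℝ}, 0 < η → ThickT IP κ → ThickT IP κ' →
    (∀ l v t, ‖v‖ < η → κ' (l, v, t) = κ (l, v, t)) → R κ κ'
  rep : ∀ {κ : ℝ × ℂ × ℝ → P}, ThickT IP κ → ∀ {φ : ℝ → ℝ}, ContDiff ℝ ∞ φ → (∀ l, φ (l + 1) = φ l + 1) →
    (∀ l, 0 < deriv φ l) → R κ fun q => κ (φ q.1, q.2)
  four : ∀ {κ : ℝ × ℂ × ℝ → P} {d : ℂ × ℝ × ℝ → P} {ε₁ ε₂ : ℝ}, Bundle IP κ d ε₁ ε₂ → ∀ {o : ℝ}, (o = 1 ∨ o = -1) →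
    ∀ {M : Equiv.Perm P}, RBM.IsM 4 d (MsDo o) M → R κ fun q => M (κ q)
  rib : ∀ {κ κ' : ℝ × ℂ × ℝ → P} {b b' : ℂ × ℝ × ℝ → P} {ε₁ ε₂ : ℝ} {τ : ℝ → ℝ} {δ : ℝ} {G : Equiv.Perm P},
    RBH.RibHom IP κ κ' b b' ε₁ ε₂ τ δ G → CSup G → R κ κ'

end

/-- the closed curves are freely homotopic -/
def HmC {N : Type*} [TopologicalSpace N] (c c' : ℝ → N) : Prop :=
  ∃ H : ℝ × ℝ → N, Continuous H ∧ (∀ s l, H (s, l + 1) = H (s, l)) ∧ (∀ l, H (0, l) = c l) ∧ ∀ l, H (1, l) = c' l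

section
variable {N : Type*} [TopologicalSpace N] [ChartedSpace E3 N]

/-- the closed knot `K ⊆ N` is the core of an equivariant thick torus of `N × Circle` which is `R`-equivalent to `κ₀`; the
core is freely homotopic to the curve `c₀` -/
def IsC (R : (ℝ × ℂ × ℝ → N × Circle) → (ℝ × ℂ × ℝ → N × Circle) → Prop) (κ₀ : ℝ × ℂ × ℝ → N × Circle) (c₀ : ℝ → N)
    (K : Set N) : Prop :=
  ∃ c : ℝ → N, range c = K ∧ HmC c₀ c ∧ ∃ κ : ℝ × ℂ × ℝ → N × Circle, ThickT IN κ ∧ Equi rot κ ∧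
    (∀ l, κ (l, 0, 0) = (c l, 1)) ∧ R κ₀ κ

end

end Pool.Agent.NHW
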