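import Pool.Agent.COR.AdA
import Pool.Agent.COR.Glu
import Pool.Agent.COR.Rep
import Pool.Agent.NHW.Rel

/-!
# NHW/AdI: adapting thick tori, with an abstract relation `R`

The proofs of COR/AdA (`adapt_arc`), COR/Glu (`adapt_glue`), with an abstract relation; the diffeomorphisms have compact support.
-/

open scoped Manifold ContDiff Topology
open Set Filter
open Complex (I)
open Pool.Agent.RSG (E4 ex cj)
open Pool.Agent.RBM (ThickT TwinP OnT)
open Pool.Agent.COR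

namespace Pool.Agent.NHW

section
variable {EP : Type*} [NormedAddCommGroup EP] [NormedSpace ℝ EP] {HP : Type*} [TopologicalSpace HP]
  {IP : ModelWithCorners ℝ EP HP} {P : Type*} [TopologicalSpace P] [ChartedSpace HP P]

theorem csup_image {κ : ℝ × ℂ × ℝ → P} (hκ : ThickT IP κ) {r : ℝ} (hR : r < 1) :
    IsCompact (κ '' {z : ℝ × ℂ × ℝ | ‖z.2.1‖ ≤ r}) := by
  have h1 : κ '' {z : ℝ × ℂ × ℝ | ‖z.2.1‖ ≤ r} =
      κ '' (Icc (0 : ℝ) 1 ×ˢ (Metric.closedBall (0 : ℂ) r ×ˢ Icc (0 : ℝ) 1)) := by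
    ext p
    constructor
    · rintro ⟨⟨l, v, t⟩, hv, rfl⟩
      refine ⟨(Int.fract l, v, Int.fract t), ⟨⟨Int.fract_nonneg l, (Int.fract_lt_one l).le⟩,
        by simpa using hv, Int.fract_nonneg t, (Int.fract_lt_one t).le⟩, ?_⟩
      have h2 := Kmv_kap hκ (Int.fract l, v, Int.fract t) ⌊l⌋ ⌊t⌋
      have h3 : ((Int.fract l, v, Int.fract t) : ℝ × ℂ × ℝ) + ((⌊l⌋ : ℝ), 0, (⌊t⌋ : ℝ)) =
          (l, v, t) := by
        simp
      rw [h3] at h2
      exact h2.symm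
    · rintro ⟨⟨l, v, t⟩, ⟨hl, hv, ht⟩, rfl⟩
      exact ⟨(l, v, t), by simpa using hv, rfl⟩
  rw [h1]
  apply IsCompact.image_of_continuousOn
  · exact isCompact_Icc.prod ((isCompact_closedBall 0 r).prod isCompact_Icc)
  · rintro ⟨l, v, t⟩ ⟨hl, hv, ht⟩
    exact (CSG.ld_continuousAt (hκ.loc l v t
      (lt_of_le_of_lt (by simpa using hv) hR))).continuousWithinAt

theorem kap_csup {κ : ℝ × ℂ × ℝ → P} (hκ : ThickT IP κ) {r : ℝ} (hR : r < 1) {H : ℝ × ℂ × ℝ → ℝ × ℂ × ℝ}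
    (hid : ∀ l v t, r ≤ ‖v‖ → H (l, v, t) = (l, v, t)) {F : P → P}
    (h1 : ∀ l v t, ‖v‖ < 1 → F (κ (l, v, t)) = κ (H (l, v, t)))
    (h2 : ∀ p, (∀ l v t, ‖v‖ < 1 → κ (l, v, t) ≠ p) → F p = p) : CSup F := by
  refine ⟨_, csup_image hκ hR, fun p hp => ?_⟩
  by_cases h : ∀ l v t, ‖v‖ < 1 → κ (l, v, t) ≠ p
  · exact h2 p h
  · push Not at h
    obtain ⟨l, v, t, hv, rfl⟩ := h
    rw [h1 l v t hv, hid l v t]
    by_contra hc
    exact hp ⟨(l, v, t), (not_le.1 hc).le, rfl⟩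

theorem adapt_arcR [T2Space P] {R : (ℝ × ℂ × ℝ → P) → (ℝ × ℂ × ℝ → P) → Prop} (T : Tor IP R) {a : ℝ → P → P} (ha : PTH.Act IP a) {κ b : ℝ × ℂ × ℝ → P}
    (hκ : ThickT IP κ) (heq : Equi a κ) (heqb : Equi a b) {c h h' : ℝ} (h0 : 0 < h) (hh : h < h')
    (hh' : h' < 1 / 2)
    (hloc : ∀ l, |l - c| < h' → IsLocalDiffeomorphAt 𝓘(ℝ, ℝ × ℂ × ℝ) IP ∞ b (l, 0, 0))
    (hcore : ∀ l, |l - c| < h' → b (l, 0, 0) = κ (l, 0, 0)) {l₀ : ℝ} (hl₀ : |l₀ - c| < h')
    (hpos : PosAt κ b l₀) :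
    ∃ κ' : ℝ × ℂ × ℝ → P, ThickT IP κ' ∧ Equi a κ' ∧ (∀ l t, κ' (l, 0, t) = κ (l, 0, t)) ∧
      (∃ ε : ℝ, 0 < ε ∧ ∀ l v t, |l - c| ≤ h → ‖v‖ ≤ ε → κ' (l, v, t) = b (l, v, t)) ∧
      (∀ l, h' ≤ |l - c| → |l - c| ≤ 1 / 2 → ∀ v t, ‖v‖ < 1 → κ' (l, v, t) = κ (l, v, t)) ∧
      R κ κ' := by
  -- the radii
  obtain ⟨h₁, hm1, hm2⟩ := exists_between (max_lt hh hl₀)
  have hh1 : h < h₁ := (le_max_left _ _).trans_lt hm1
  have hl1 : |l₀ - c| < h₁ := (le_max_right _ _).trans_lt hm1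
  obtain ⟨h₂, h12, h2h'⟩ := exists_between hm2
  have h1pos : 0 < h₁ := h0.trans hh1
  obtain ⟨ς, hς, hςp, hς1, hς0⟩ := AdA_cut (c := c) h1pos h12 (h2h'.trans hh')
  obtain ⟨ς₂, hς₂, hς₂p, hς₂1, hς₂0⟩ := AdA_cut (c := c) (h1 := h) (h2 := (h + h₁) / 2) h0
    (by linarith) (by linarith)
  -- the periodic extension
  have hcd : Continuous fun l : ℝ => |(l - c) - round (l - c)| :=
    CSG.EeP_cont_round.comp (continuous_id.sub continuous_const)
  set U : Set ℝ := {l | |(l - c) - round (l - c)| < h'} with hUdef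
  have hU : IsOpen U := isOpen_lt hcd continuous_const
  have hςU : tsupport ς ⊆ U := by
    have h1 : tsupport ς ⊆ {l | |(l - c) - round (l - c)| ≤ h₂} :=
      closure_minimal (fun l hl => hς0 l hl) (isClosed_le hcd continuous_const)
    intro l hl
    have h2 : |(l - c) - round (l - c)| ≤ h₂ := h1 hl
    exact lt_of_le_of_lt h2 h2h'
  have hperb : ∀ l v t, AdA_b c b (l + 1, v, t) = AdA_b c b (l, v, t) := by
    intro l v t
    unfold AdA_b
    simp only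
    rw [show l + 1 - c = (l - c) + 1 by ring, round_add_one]
    congr 2
    push_cast
    ring
  have heqb' : Equi a (AdA_b c b) := fun l v t => heqb _ _ _
  have hκper : ∀ (l : ℝ) (m : ℤ), κ (l - m, 0, 0) = κ (l, 0, 0) := by
    intro l m
    have := RSG.GerM_per (f := fun x => κ (x, 0, 0)) (fun x => hκ.perl x 0 0) l (-m)
    rw [← this]
    push_cast
    rw [sub_eq_add_neg]
  obtain ⟨ε, hε, lam, om, tau, hlam, hom, htau, hlamp, homp, htaup, hz0, hmain, hinj, -⟩ :=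
    exists_lft ha hκ heq heqb' hperb hU hς hςp hςU
      (fun l hl => AdA_b_ld hh' hloc hl)
      (fun l hl => by
        unfold AdA_b
        simp only
        have hl' : |(l - c) - round (l - c)| < h' := hl
        rw [hcore (l - round (l - c)) (by
          rw [show l - (round (l - c) : ℝ) - c = (l - c) - round (l - c) by ring]
          exact hl'), hκper]) (R := 1) one_pos
  -- the determinant
  have hdt : ∀ l, |l - c| ≤ h₁ → dt (dv om l) ≠ 0 := fun l hl => AdA_dt_ne (hinj l (hς1 l hl))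
  have hdt0 : 0 < dt (dv om l₀) := by
    obtain ⟨lam', om', tau', c1, c2, c3, e1, e2, e3, hev, hd⟩ := hpos
    have hz : om (l₀, 0) = 0 := (hz0 l₀).2.1
    have hom_eq : om =ᶠ[𝓝 (l₀, 0)] om' := by
      have o1 : ∀ᶠ q : ℝ × ℂ in 𝓝 (l₀, 0), |q.1 - c| < h₁ := by
        have hc : Continuous fun q : ℝ × ℂ => |q.1 - c| := by fun_prop
        exact hc.continuousAt.eventually_lt continuousAt_const hl1
      have o2 : ∀ᶠ q : ℝ × ℂ in 𝓝 (l₀, 0), ‖q.2‖ < ε := by
        have hc : Continuous fun q : ℝ × ℂ => ‖q.2‖ := by fun_prop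
        exact hc.continuousAt.eventually_lt continuousAt_const (by simpa using hε)
      have o3 : ∀ᶠ q : ℝ × ℂ in 𝓝 (l₀, 0), ‖om' q‖ < 1 := by
        have hc : ContinuousAt (fun q : ℝ × ℂ => ‖om' q‖) (l₀, 0) := c2.continuousAt.norm
        exact hc.eventually_lt continuousAt_const (by rw [e2]; simp)
      filter_upwards [o1, o2, o3, hev] with q q1 q2 q3 q4
      have g1 := hmain q.1 (hς1 q.1 q1.le) q.2 0 q2.le
      have g2 := q4 0
      rw [AdA_b_eq b (lt_trans q1 (by linarith))] at g1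
      exact (hκ.inj _ _ _ _ _ _ g1.2.1 q3 (g1.2.2.symm.trans g2)).1
    have hdv : dv om l₀ = dv om' l₀ := by
      unfold dv
      apply Filter.EventuallyEq.fderiv_eq
      have hc : ContinuousAt (fun v : ℂ => ((l₀, v) : ℝ × ℂ)) 0 := by fun_prop
      exact hc.eventually hom_eq
    rw [hdv]
    exact hd
  have hdtpos : ∀ l, |l - c| ≤ h₁ → 0 < dt (dv om l) := by
    intro l hl
    by_contra hneg
    push Not at hneg
    have hconn : IsPreconnected (Set.Icc (c - h₁) (c + h₁)) := isPreconnected_Icc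
    have hmem : ∀ x, |x - c| ≤ h₁ → x ∈ Set.Icc (c - h₁) (c + h₁) := by
      intro x hx
      rw [abs_le] at hx
      exact ⟨by linarith [hx.1], by linarith [hx.2]⟩
    obtain ⟨x, hx, hx0⟩ := hconn.intermediate_value (hmem l hl) (hmem l₀ hl1.le)
      (AdA_dt_cont hom).continuousOn ⟨hneg, hdt0.le⟩
    refine hdt x ?_ hx0
    rw [abs_le]
    exact ⟨by linarith [hx.1], by linarith [hx.2]⟩
  obtain ⟨A, β, hA, hβ, hAp, hβp, hβ1, hAβ, hAβ0⟩ := exists_log_arc hom h0 hh1 (by linarith)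
    hdtpos
  -- the germ
  set E : ℝ × ℂ → ℂ := fun q => (ς₂ q.1 : ℝ) • (om q - dv om q.1 q.2) with hE
  have hEs : ContDiff ℝ ∞ E := by
    exact (hς₂.comp contDiff_fst).smul (hom.sub (AdA_dv_smooth hom))
  have hdvp : ∀ l, dv om (l + 1) = dv om l := by
    intro l
    unfold dv
    congr 1
    funext v
    exact homp l v
  have hEp : ∀ l v, E (l + 1, v) = E (l, v) := by
    intro l v
    simp only [hE]
    rw [hς₂p, homp, hdvp]
  have hE0 : ∀ l, E (l, 0) = 0 := by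
    intro l
    simp only [hE]
    rw [(hz0 l).2.1, map_zero, sub_zero, smul_zero]
  have hE1 : ∀ l, dv E l = 0 := by
    intro l
    have h1 : HasFDerivAt (fun v : ℂ => om (l, v)) (dv om l) 0 := by
      have hd : Differentiable ℝ (fun v : ℂ => om (l, v)) :=
        (hom.comp (contDiff_const.prodMk contDiff_id)).differentiable (by simp)
      exact (hd 0).hasFDerivAt
    have h2 : HasFDerivAt (fun v : ℂ => dv om l v) (dv om l) 0 := (dv om l).hasFDerivAt
    have h3 : HasFDerivAt (fun v : ℂ => E (l, v)) ((ς₂ l : ℝ) • (dv om l - dv om l)) 0 :=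
      (h1.sub h2).const_smul (ς₂ l)
    rw [sub_self, smul_zero] at h3
    exact h3.fderiv
  set lam' : ℝ × ℂ → ℝ := fun q => q.1 + ς₂ q.1 * (lam q - q.1) with hlam'
  set tau' : ℝ × ℂ → ℝ := fun q => ς₂ q.1 * tau q with htau'
  have hlams : ContDiff ℝ ∞ lam' :=
    contDiff_fst.add ((hς₂.comp contDiff_fst).mul (hlam.sub contDiff_fst))
  have htaus : ContDiff ℝ ∞ tau' := (hς₂.comp contDiff_fst).mul htau
  obtain ⟨ε', hε', H, hH, hH', hHl, hHt, hHε, hHR, hHid⟩ := exists_germ (A := A) (b := β) (E := E)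
    (lam := lam') (tau := tau') hA hβ hEs hlams htaus hAp hβp hEp
    (by
      intro l v
      simp only [hlam']
      rw [hς₂p, hlamp]
      ring)
    (by
      intro l v
      simp only [htau']
      rw [hς₂p, htaup]) hβ1 hE0 hE1
    (by
      intro l
      simp only [hlam']
      rw [(hz0 l).1]
      ring)
    (by
      intro l
      simp only [htau']
      rw [(hz0 l).2.2, mul_zero]) (R := 1 / 2) (by norm_num)
  obtain ⟨F, hF, hFκ, hFo, hFa⟩ := kap_move hκ hH hH' hHl hHt (R := 1 / 2) (by norm_num) hHR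
  have hlin0 : ∀ A b : ℂ, lin A b 0 = 0 := by
    intro A b
    simp [lin]
  refine ⟨fun q => F (κ q), ThickT_diffeo F hF hκ, ?_, ?_, ⟨min ε ε', lt_min hε hε', ?_⟩, ?_, ?_⟩
  · intro l v t
    show F (κ (l, v, t)) = a t (F (κ (l, v, 0)))
    rw [heq l v t, hFa a ha heq]
  · intro l t
    show F (κ (l, 0, t)) = κ (l, 0, t)
    rw [hFκ l 0 t (by simp), hHε l 0 t (by simpa using hε'.le), hlin0, hE0, zero_add]
    simp only [hlam', htau']
    rw [(hz0 l).1, (hz0 l).2.2, sub_self, mul_zero, add_zero, add_zero]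
  · intro l v t hl hv
    show F (κ (l, v, t)) = b (l, v, t)
    have hςl : ς₂ l = 1 := hς₂1 l hl
    have hv1 : ‖v‖ ≤ ε := hv.trans (min_le_left _ _)
    have hv2 : ‖v‖ ≤ ε' := hv.trans (min_le_right _ _)
    have g1 := hmain l (hς1 l (by linarith)) v t hv1
    by_cases hv3 : ‖v‖ < 1
    · rw [hFκ l v t hv3, hHε l v t hv2]
      simp only [hlam', htau', hE]
      rw [hςl, ← hAβ l hl v, one_smul, one_mul, one_mul, add_sub_cancel, add_sub_cancel,
        ← g1.2.2, AdA_b_eq b (by linarith)]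
    · exfalso
      have hH1 : H (l, v, t) = (l, v, t) := hHR l v t (by linarith [not_lt.1 hv3])
      have hH2 := hHε l v t hv2
      rw [hH1] at hH2
      simp only [hlam', htau', hE] at hH2
      rw [hςl, ← hAβ l hl v, one_smul, one_mul, one_mul, add_sub_cancel, add_sub_cancel] at hH2
      have hH3 : v = om (l, v) := congrArg (fun q : ℝ × ℂ × ℝ => q.2.1) hH2
      rw [hH3] at hv3
      exact hv3 g1.2.1
  · intro l hl1' hl2 v t hv
    show F (κ (l, v, t)) = κ (l, v, t)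
    have hςl : ς₂ l = 0 := by
      by_contra hne
      have := hς₂0 l hne
      rw [AdA_rd hl2] at this
      linarith
    obtain ⟨hA0, hb0⟩ := hAβ0 l (by linarith) hl2
    rw [hFκ l v t hv, hHid l hA0 hb0 (fun v => by simp only [hE]; rw [hςl, zero_smul])
      (fun v => by simp only [hlam']; rw [hςl, zero_mul, add_zero])
      (fun v => by simp only [htau']; rw [hςl, zero_mul])]
  · exact T.diffeo F hF (kap_csup hκ (by norm_num) hHR hFκ hFo)

theorem adapt_glueR [T2Space P] {R : (ℝ × ℂ × ℝ → P) → (ℝ × ℂ × ℝ → P) → Prop} (T : Tor IP R) {a : ℝ → P → P} (ha : PTH.Act IP a) {κ b : ℝ × ℂ × ℝ → P}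
    (hκ : ThickT IP κ) (heq : Equi a κ) (heqb : Equi a b) (hperb : ∀ l v t, b (l + 1, v, t) = b (l, v, t))
    {U : Set ℝ} (hU : IsOpen U) (hUp : PerS U) {ς : ℝ → ℝ} (hς : ContDiff ℝ ∞ ς)
    (hςp : ∀ l, ς (l + 1) = ς l) (hς01 : ∀ l, 0 ≤ ς l ∧ ς l ≤ 1) (hςU : tsupport ς ⊆ U) {r : ℝ}
    (hr : 1 < r)
    (hloc : ∀ l ∈ U, ∀ v t, ‖v‖ < r → IsLocalDiffeomorphAt 𝓘(ℝ, ℝ × ℂ × ℝ) IP ∞ b (l, v, t))
    (hinj : ∀ l ∈ U, ∀ l' ∈ U, ∀ v v' t t', ‖v‖ < r → ‖v'‖ < r → b (l, v, t) = b (l', v', t') →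
      v = v' ∧ (∃ m : ℤ, l' = l + m) ∧ ∃ m : ℤ, t' = t + m) {ε : ℝ} (hε : 0 < ε)
    (hgerm : ∀ l ∈ U, ∀ v t, ‖v‖ ≤ ε → κ (l, v, t) = b (l, v, t))
    (hoff : ∀ l ∈ U, ∀ v t, v ≠ 0 → ‖v‖ < r → ∀ l' t', b (l, v, t) ≠ κ (l', 0, t')) {Fc : Set P}
    (hFc : IsClosed Fc) (hK : ∀ l, l ∉ U → ∀ t, κ (l, 0, t) ∉ Fc) :
    ∃ κ' : ℝ × ℂ × ℝ → P, ThickT IP κ' ∧ Equi a κ' ∧ (∀ l t, κ' (l, 0, t) = κ (l, 0, t)) ∧
      (∀ l v t, ς l = 1 → ‖v‖ < 1 → κ' (l, v, t) = b (l, v, t)) ∧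
      (∀ l ∈ U, ∀ v t, ‖v‖ < 1 → ∃ v', ‖v'‖ < 1 ∧ κ' (l, v, t) = b (l, v', t)) ∧
      (∀ l, l ∉ U → ∀ v t, ‖v‖ < 1 → κ' (l, v, t) ∉ Fc) ∧
      R κ κ' := by
  classical
  have hTper : ∀ l, l + 1 ∈ tsupport ς ↔ l ∈ tsupport ς := by
    intro l
    have h1 : (fun x : ℝ => ς (x + 1)) = ς := funext hςp
    have h2 := tsupport_comp_eq_preimage ς (Homeomorph.addRight (1 : ℝ))
    have h3 : ς ∘ (Homeomorph.addRight (1 : ℝ)) = ς := h1
    rw [h3] at h2
    constructor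
    · intro h
      rw [h2]
      exact h
    · intro h
      rw [h2] at h
      exact h
  obtain ⟨ε', hε', hε'1, hε'2, htub⟩ := Glu_tub ha hκ heqb hperb hU hUp (isClosed_tsupport ς) hTper hςU
    hr hloc hε hgerm hoff hFc hK
  obtain ⟨g, g1, ⟨δ, hδ, g2⟩, g3, g4, g5⟩ := exists_compress hε'
  have hg : GluC g δ ε' := ⟨g1, hδ, g2, g3, g4, g5⟩
  have hς0 : ∀ l, l ∉ tsupport ς → ς l = 0 := fun l hl => image_eq_zero_of_notMem_tsupport hl
  have hpb : ∀ l v t, b (l, v, t + 1) = b (l, v, t) := by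
    intro l v t
    rw [heqb l v (t + 1), heqb l v t, ha.add, ha.per]
  obtain ⟨κ', hκ'⟩ : ∃ κ' : ℝ × ℂ × ℝ → P, κ' = fun q =>
    if q.1 ∈ U then b (Glu_P g ς q) else κ (Glu_P g ς q) := ⟨_, rfl⟩
  have kU : ∀ l ∈ U, ∀ v t, κ' (l, v, t) = b (l, Glu_G g (ς l) v, t) := by
    intro l hl v t
    rw [hκ']
    exact if_pos hl
  have kT : ∀ l, l ∉ tsupport ς → ∀ v t, ‖v‖ < 1 → κ' (l, v, t) = κ (l, Glu_G g (ς l) v, t) := by
    intro l hl v t hv
    by_cases h : l ∈ U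
    · rw [kU l h, hgerm l h]
      rw [hς0 l hl]
      exact (Glu_G_small hg hε' hv).le.trans hε'1
    · rw [hκ']
      exact if_neg h
  have hnT : ∀ l, l ∉ U → l ∉ tsupport ς := fun l hl h => hl (hςU h)
  have hthick : ThickT IP κ' := by
    refine ⟨fun l v t => ?_, fun l v t => ?_, fun l v t hv => ?_, ?_⟩
    · by_cases h : l ∈ U
      · rw [kU _ ((hUp l).2 h), kU _ h, hperb, hςp]
      · have h' : l + 1 ∉ U := fun hh => h ((hUp l).1 hh)
        rw [hκ']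
        simp only [h, h', if_false, Glu_P]
        rw [hςp, hκ.perl]
    · by_cases h : l ∈ U
      · rw [kU _ h, kU _ h, hpb]
      · rw [hκ']
        simp only [h, if_false, Glu_P]
        rw [hκ.pert]
    · by_cases h : l ∈ U
      · have h1 : IsLocalDiffeomorphAt 𝓘(ℝ, ℝ × ℂ × ℝ) IP ∞ (b ∘ Glu_P g ς) (l, v, t) :=
          IsLocalDiffeomorphAt.comp (hf := Glu_P_ld hg hς hς01 (l, v, t))
            (hg := hloc l h _ t (lt_of_le_of_lt (Glu_G_le hg (hς01 l) v) (by linarith)))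
        refine CSG.ld_congr h1 ?_
        have h2 : ∀ᶠ q : ℝ × ℂ × ℝ in 𝓝 (l, v, t), q.1 ∈ U :=
          continuousAt_fst.eventually_mem (hU.mem_nhds h)
        filter_upwards [h2] with q hq
        exact kU q.1 hq q.2.1 q.2.2
      · have h1 : IsLocalDiffeomorphAt 𝓘(ℝ, ℝ × ℂ × ℝ) IP ∞ (κ ∘ Glu_P g ς) (l, v, t) :=
          IsLocalDiffeomorphAt.comp (hf := Glu_P_ld hg hς hς01 (l, v, t))
            (hg := hκ.loc l _ t (lt_of_le_of_lt (Glu_G_le hg (hς01 l) v) hv))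
        refine CSG.ld_congr h1 ?_
        have h2' : (tsupport ς)ᶜ ∈ 𝓝 l := (isClosed_tsupport ς).isOpen_compl.mem_nhds (hnT l h)
        have h2 : ∀ᶠ q : ℝ × ℂ × ℝ in 𝓝 (l, v, t), q.1 ∈ (tsupport ς)ᶜ :=
          (continuousAt_fst (p := ((l, v, t) : ℝ × ℂ × ℝ))).eventually_mem h2'
        have h3 : ∀ᶠ q : ℝ × ℂ × ℝ in 𝓝 (l, v, t), ‖q.2.1‖ < 1 :=
          (continuous_snd.fst.norm).continuousAt.eventually_lt continuousAt_const hv
        filter_upwards [h2, h3] with q hq hq'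
        exact kT q.1 hq q.2.1 q.2.2 hq'
    · intro l v t l' v' t' hv hv' he
      have hn := Glu_G_le hg (hς01 l) v
      have hn' := Glu_G_le hg (hς01 l') v'
      have hfin : ∀ m : ℤ, l' = l + m → Glu_G g (ς l) v = Glu_G g (ς l') v' → v = v' := by
        intro m hm hG
        rw [hm, Glu_int hςp] at hG
        exact Glu_G_inj hg (hς01 l) hG
      by_cases h : l ∈ U <;> by_cases h' : l' ∈ U
      · rw [kU l h, kU l' h'] at he
        obtain ⟨e1, ⟨m, e2⟩, e3⟩ := hinj l h l' h' _ _ _ _ (by linarith) (by linarith) he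
        exact ⟨hfin m e2 e1, ⟨m, e2⟩, e3⟩
      · by_cases hT : l ∈ tsupport ς
        · exfalso
          rw [kU l h, kT l' (hnT l' h') v' t' hv', hς0 l' (hnT l' h')] at he
          exact (htub l' h' _ t' (Glu_G_small hg hε' hv')).2 l hT _ t (by linarith) he.symm
        · exfalso
          rw [kT l hT v t hv, kT l' (hnT l' h') v' t' hv'] at he
          obtain ⟨-, ⟨m, e2⟩, -⟩ := hκ.inj _ _ _ _ _ _ (by linarith) (by linarith) he
          apply h'
          rw [e2]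
          exact (Glu_U hUp l m).2 h
      · by_cases hT : l' ∈ tsupport ς
        · exfalso
          rw [kU l' h', kT l (hnT l h) v t hv, hς0 l (hnT l h)] at he
          exact (htub l h _ t (Glu_G_small hg hε' hv)).2 l' hT _ t' (by linarith) he
        · exfalso
          rw [kT l' hT v' t' hv', kT l (hnT l h) v t hv] at he
          obtain ⟨-, ⟨m, e2⟩, -⟩ := hκ.inj _ _ _ _ _ _ (by linarith) (by linarith) he
          apply h
          rw [← Glu_U hUp l m, ← e2]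
          exact h'
      · rw [kT l (hnT l h) v t hv, kT l' (hnT l' h') v' t' hv'] at he
        obtain ⟨e1, ⟨m, e2⟩, e3⟩ := hκ.inj _ _ _ _ _ _ (by linarith) (by linarith) he
        exact ⟨hfin m e2 e1, ⟨m, e2⟩, e3⟩
  refine ⟨κ', hthick, ?_, ?_, ?_, ?_, ?_, ?_⟩
  · intro l v t
    by_cases h : l ∈ U
    · rw [kU l h, kU l h, heqb]
    · rw [hκ']
      simp only [h, if_false, Glu_P]
      rw [heq]
  · intro l t
    by_cases h : l ∈ U
    · rw [kU l h, Glu_G_zero, hgerm l h 0 t (by rw [norm_zero]; exact hε.le)]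
    · rw [kT l (hnT l h) 0 t (by rw [norm_zero]; exact one_pos), Glu_G_zero]
  · intro l v t h1 hv
    have hl : l ∈ U := by
      apply hςU
      apply subset_tsupport
      rw [Function.mem_support, h1]
      exact one_ne_zero
    rw [kU l hl, h1, Glu_G_top]
  · intro l hl v t hv
    exact ⟨Glu_G g (ς l) v, lt_of_le_of_lt (Glu_G_le hg (hς01 l) v) hv, kU l hl v t⟩
  · intro l hl v t hv
    rw [kT l (hnT l hl) v t hv, hς0 l (hnT l hl)]
    exact (htub l hl _ t (Glu_G_small hg hε' hv)).1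
  · refine T.germ (η := min (min (Real.sqrt δ) ε) 1)
      (lt_min (lt_min (Real.sqrt_pos.2 hδ) hε) one_pos) hκ hthick ?_
    intro l v t hv
    have e1 : ‖v‖ < Real.sqrt δ := lt_of_lt_of_le hv ((min_le_left _ _).trans (min_le_left _ _))
    have e2 : ‖v‖ < ε := lt_of_lt_of_le hv ((min_le_left _ _).trans (min_le_right _ _))
    have e3 : ‖v‖ < 1 := lt_of_lt_of_le hv (min_le_right _ _)
    have e4 : ‖v‖ ^ 2 ≤ δ := by
      have := Real.lt_sqrt (norm_nonneg v) |>.1 e1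
      exact this.le
    by_cases h : l ∈ U
    · rw [kU l h, Glu_G_one hg _ e4, hgerm l h v t e2.le]
    · rw [kT l (hnT l h) v t e3, Glu_G_one hg _ e4]

end

end Pool.Agent.NHW
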