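import Pool.Agent.COR.Bnd
import Pool.Agent.NHB.Coh
import Pool.Agent.NHW.AdI

/-!
# NHW/Bnd: from the core to a bundle, in an oriented 4-manifold `P`

The proof of COR/Bnd (`exists_bundle`) with an orientation of `P`, and with an abstract relation.
-/

open scoped Manifold ContDiff Topology
open Set Filter
open Complex (I)
open Pool.Agent.RSG (E4 ex cj)
open Pool.Agent.RBM (ThickT TwinP OnT Box Bundle)
open Pool.Agent.COR

open Pool.Agent.NHB (OrP coherent)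

namespace Pool.Agent.NHW

section
variable {EP : Type*} [NormedAddCommGroup EP] [NormedSpace ℝ EP] {HP : Type*} [TopologicalSpace HP]
  {IP : ModelWithCorners ℝ EP HP} {P : Type*} [TopologicalSpace P] [ChartedSpace HP P]

theorem bnd_twoR [T2Space P] {R : (ℝ × ℂ × ℝ → P) → (ℝ × ℂ × ℝ → P) → Prop} (T : Tor IP R) {a : ℝ → P → P} (ha : PTH.Act IP a) {κ B₁ B₂ : ℝ × ℂ × ℝ → P}
    (hκ : ThickT IP κ) (heq : Equi a κ) (heq₁ : Equi a B₁) (heq₂ : Equi a B₂)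
    (hloc₁ : ∀ l, |l - 1 / 4| < 3 / 32 → IsLocalDiffeomorphAt 𝓘(ℝ, ℝ × ℂ × ℝ) IP ∞ B₁ (l, 0, 0))
    (hloc₂ : ∀ l, |l - 3 / 4| < 3 / 32 → IsLocalDiffeomorphAt 𝓘(ℝ, ℝ × ℂ × ℝ) IP ∞ B₂ (l, 0, 0))
    (hcore₁ : ∀ l, |l - 1 / 4| < 3 / 32 → B₁ (l, 0, 0) = κ (l, 0, 0))
    (hcore₂ : ∀ l, |l - 3 / 4| < 3 / 32 → B₂ (l, 0, 0) = κ (l, 0, 0))
    (hpos₁ : PosAt κ B₁ (1 / 4)) (hpos₂ : PosAt κ B₂ (3 / 4)) :
    ∃ κ' : ℝ × ℂ × ℝ → P, ThickT IP κ' ∧ Equi a κ' ∧ (∀ l t, κ' (l, 0, t) = κ (l, 0, t)) ∧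
      (∃ ε : ℝ, 0 < ε ∧ ∀ l v t, ‖v‖ ≤ ε → (|l - 1 / 4| ≤ 11 / 128 → κ' (l, v, t) = B₁ (l, v, t)) ∧
        (|l - 3 / 4| ≤ 11 / 128 → κ' (l, v, t) = B₂ (l, v, t))) ∧
      R κ κ' := by
  obtain ⟨κ₂, k1, k2, k3, ⟨e₁, he₁, k4⟩, k5, k6⟩ := adapt_arcR T ha hκ heq heq₁ (c := 1 / 4)
    (h := 11 / 128) (h' := 3 / 32) (by norm_num) (by norm_num) (by norm_num) hloc₁ hcore₁
    (l₀ := 1 / 4) (by norm_num) hpos₁
  have far₂ : ∀ l : ℝ, (∀ k : ℤ, 3 / 32 ≤ |l - 1 / 4 - k|) → ∀ v t, ‖v‖ < 1 →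
      κ₂ (l, v, t) = κ (l, v, t) := fun l hl v t hv => Bnd_far hκ k1 k5 l hl v t hv
  -- separation of the arcs
  have sep : ∀ l : ℝ, |l - 3 / 4| < 1 / 8 → ∀ k : ℤ, 3 / 32 ≤ |l - 1 / 4 - k| := by
    intro l hl k
    rw [abs_lt] at hl
    rcases le_or_gt k 0 with hk | hk
    · have : (k : ℝ) ≤ 0 := by exact_mod_cast hk
      rw [abs_of_pos] <;> linarith [hl.1, hl.2]
    · have : (1 : ℝ) ≤ k := by exact_mod_cast hk
      rw [abs_of_neg] <;> linarith [hl.1, hl.2]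
  have sep' : ∀ l : ℝ, |l - 1 / 4| < 1 / 8 → ∀ k : ℤ, 3 / 32 ≤ |l - 3 / 4 - k| := by
    intro l hl k
    rw [abs_lt] at hl
    rcases le_or_gt 0 k with hk | hk
    · have : (0 : ℝ) ≤ k := by exact_mod_cast hk
      rw [abs_of_neg] <;> linarith [hl.1, hl.2]
    · have : (k : ℝ) ≤ -1 := by
        have : k ≤ -1 := by omega
        exact_mod_cast this
      rw [abs_of_pos] <;> linarith [hl.1, hl.2]
  have hpos₂' : PosAt κ₂ B₂ (3 / 4) := by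
    obtain ⟨lam, om, tau, p1, p2, p3, p4, p5, p6, p7, p8⟩ := hpos₂
    refine ⟨lam, om, tau, p1, p2, p3, p4, p5, p6, ?_, p8⟩
    have q1 : ∀ᶠ q in 𝓝 ((3 / 4 : ℝ), (0 : ℂ)), |lam q - 3 / 4| < 1 / 8 := by
      have : ContinuousAt (fun q => |lam q - 3 / 4|) ((3 / 4 : ℝ), (0 : ℂ)) :=
        (p1.continuousAt.sub continuousAt_const).abs
      apply this.eventually_lt continuousAt_const
      rw [p4]
      norm_num
    have q2 : ∀ᶠ q in 𝓝 ((3 / 4 : ℝ), (0 : ℂ)), ‖om q‖ < 1 := by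
      have : ContinuousAt (fun q => ‖om q‖) ((3 / 4 : ℝ), (0 : ℂ)) := p2.continuousAt.norm
      apply this.eventually_lt continuousAt_const
      rw [p5]
      norm_num
    filter_upwards [p7, q1, q2] with q h1 h2 h3 t
    rw [h1 t, far₂ _ (sep _ h2) _ _ h3]
  obtain ⟨κ₃, m1, m2, m3, ⟨e₂, he₂, m4⟩, m5, m6⟩ := adapt_arcR T ha k1 k2 heq₂ (c := 3 / 4)
    (h := 11 / 128) (h' := 3 / 32) (by norm_num) (by norm_num) (by norm_num) hloc₂
    (fun l hl => by rw [hcore₂ l hl, k3]) (l₀ := 3 / 4) (by norm_num) hpos₂'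
  refine ⟨κ₃, m1, m2, fun l t => by rw [m3, k3], ⟨min (min e₁ e₂) (1 / 2), ?_, ?_⟩, ?_⟩
  · exact lt_min (lt_min he₁ he₂) (by norm_num)
  · intro l v t hv
    have v1 : ‖v‖ ≤ e₁ := hv.trans ((min_le_left _ _).trans (min_le_left _ _))
    have v2 : ‖v‖ ≤ e₂ := hv.trans ((min_le_left _ _).trans (min_le_right _ _))
    have v3 : ‖v‖ < 1 := lt_of_le_of_lt (hv.trans (min_le_right _ _)) (by norm_num)
    constructor
    · intro hl
      have h1 : |l - 1 / 4| < 1 / 8 := lt_of_le_of_lt hl (by norm_num)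
      rw [Bnd_far k1 m1 m5 l (sep' l h1) v t v3]
      exact k4 l v t hl v1
    · intro hl
      exact m4 l v t hl v2
  · exact T.trans k6 m6

theorem exists_bundleR [T2Space P] {R : (ℝ × ℂ × ℝ → P) → (ℝ × ℂ × ℝ → P) → Prop} (T : Tor IP R) {J : (ℝ × ℂ × ℝ → P) → ℝ × ℂ × ℝ → ℝ} (hJ : OrP IP J) {a : ℝ → P → P} (ha : PTH.Act IP a) {K : ℝ → P}
    {κ₀ : ℝ × ℂ × ℝ → P} (hκ₀ : ThickT IP κ₀) (heq₀ : Equi a κ₀) (hK₀ : ∀ l, κ₀ (l, 0, 0) = K l)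
    {b : ℂ × ℝ × ℝ → P} (hb : Box IP b 5) (heqb : EquiB a b) {f₁ f₂ : ℝ → ℝ} {ε₁ ε₂ : ℝ}
    (hs : TwoStrands b K f₁ f₂ ε₁ ε₂) {Fc : Set P} (hFc : IsClosed Fc)
    (hF : ∀ l, (f₁ (1 / 2) ≤ l ∧ l ≤ f₂ (-(1 / 2))) ∨ (f₂ (1 / 2) ≤ l ∧ l ≤ f₁ (-(1 / 2)) + 1) →
      ∀ t, a t (K l) ∉ Fc) :
    ∃ (κ : ℝ × ℂ × ℝ → P) (φ : ℝ → ℝ) (σ : ℝ), (σ = 1 ∨ σ = -1) ∧ Equi a κ ∧
      Bundle IP κ (half σ b) ε₁ ε₂ ∧ ContDiff ℝ ∞ φ ∧ (∀ l, φ (l + 1) = φ l + 1) ∧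
      (∀ l, 0 < deriv φ l) ∧ (∀ l, κ (l, 0, 0) = K (φ l)) ∧
      (∀ u, |u| ≤ 1 / 16 → φ (1 / 4 + u) = f₁ (8 * u)) ∧
      (∀ u, |u| ≤ 1 / 16 → φ (3 / 4 + u) = f₂ (8 * u)) ∧
      (∀ l v t, ‖v‖ < 1 → OutW l → κ (l, v, t) ∉ Fc ∨
        ∃ (z : ℂ) (s t' : ℝ), ‖z‖ < 4 ∧ 1 / 2 ≤ |s| ∧ |s| < 1 ∧ κ (l, v, t) = b (z, s, t')) ∧
      R κ₀ κ := by
  obtain ⟨φ, f1, f2, f3, f4, f5⟩ := exists_phi hs.smooth₁ hs.smooth₂ hs.deriv₁ hs.deriv₂ hs.ord₁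
    hs.ord₂
  have hm : StrictMono φ := strictMono_of_deriv_pos f3
  have hm1 : StrictMono f₁ := strictMono_of_deriv_pos hs.deriv₁
  have hm2 : StrictMono f₂ := strictMono_of_deriv_pos hs.deriv₂
  have s1 := hs.sign₁
  have s2 := hs.sign₂
  -- the reparametrised torus
  have hκ₁ := thick_rep hκ₀ f1 f2 f3
  set κ₁ : ℝ × ℂ × ℝ → P := fun q => κ₀ (φ q.1, q.2) with hκ₁d
  have heq₁ : Equi a κ₁ := fun l v t => heq₀ (φ l) v t
  have hcore : ∀ l, κ₁ (l, 0, 0) = K (φ l) := fun l => hK₀ (φ l)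
  have hKp : ∀ l, K (l + 1) = K l := fun l => by rw [← hK₀, ← hK₀]; exact hκ₀.perl l 0 0
  have cj0 : ∀ ε : ℝ, cj ε 0 = 0 := RSG.cj_zero
  have cjr : ∀ σ δ : ℝ, cj σ (δ : ℂ) = δ := by
    intro σ δ
    simp [cj, Complex.ext_iff]
  have core₁ : ∀ l, |l - 1 / 4| ≤ 3 / 32 → ∀ σ, strand (refl σ b) ε₁ 1 8 (1 / 4) (l, 0, 0) =
      κ₁ (l, 0, 0) := by
    intro l hl σ
    have h1 := f4 (l - 1 / 4) hl
    rw [add_sub_cancel] at h1
    rw [hcore, h1, hs.strand₁]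
    · simp only [strand, COR.refl, cj0, zero_div, add_zero, cjr]
      norm_num
    · rw [abs_mul, abs_of_pos (by norm_num : (0 : ℝ) < 8)]
      linarith
  have core₂ : ∀ l, |l - 3 / 4| ≤ 3 / 32 → ∀ σ, strand (refl σ b) ε₂ (-1) 8 (3 / 4) (l, 0, 0) =
      κ₁ (l, 0, 0) := by
    intro l hl σ
    have h1 := f5 (l - 3 / 4) hl
    rw [add_sub_cancel] at h1
    rw [hcore, h1, hs.strand₂]
    · simp only [strand, COR.refl, cj0, zero_div, add_zero, cjr]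
      norm_num
    · rw [abs_mul, abs_of_pos (by norm_num : (0 : ℝ) < 8)]
      linarith
  have hstr : ∀ ε δ w c q, strand b ε δ w c q = strand (refl 1 b) ε δ w c q := by
    intro ε δ w c q
    have h1 : ∀ z : ℂ, cj 1 z = z := fun z => by simp [cj, Complex.ext_iff]
    simp only [strand, COR.refl, h1]
  have ev : ∀ c : ℝ, ∀ᶠ l in 𝓝 c, |l - c| ≤ 3 / 32 := by
    intro c
    have : ContinuousAt (fun l : ℝ => |l - c|) c := by fun_prop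
    have h2 : ∀ᶠ l in 𝓝 c, |l - c| < 3 / 32 := by
      apply this.eventually_lt continuousAt_const
      simp
    exact h2.mono fun l hl => hl.le
  obtain ⟨σ, hσ, hp₁, hp₂⟩ := coherent hJ ha hκ₁ heq₁ hb heqb s1 s2 (w := 8) (by norm_num)
    (c₁ := 1 / 4) (c₂ := 3 / 4)
    ((ev (1 / 4)).mono fun l hl => by rw [hstr]; exact (core₁ l hl 1).symm)
    ((ev (3 / 4)).mono fun l hl => by rw [hstr]; exact (core₂ l hl 1).symm)
  -- the thickenings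
  have eqS : ∀ ε δ w c, Equi a (strand (refl σ b) ε δ w c) := fun ε δ w c l v t => heqb _ _ _
  have locS : ∀ (ε δ c : ℝ), (ε = 1 ∨ ε = -1) → |δ| = 1 → ∀ l, |l - c| < 3 / 32 →
      IsLocalDiffeomorphAt 𝓘(ℝ, ℝ × ℂ × ℝ) IP ∞ (strand (refl σ b) ε δ 8 c) (l, 0, 0) := by
    intro ε δ c hε hδ l hl
    have hg := Bnd_g_ld hσ hε (by norm_num : (0 : ℝ) < 8) δ c (l, 0, 0)
    rw [Bnd_strand]
    have hloc : IsLocalDiffeomorphAt 𝓘(ℝ, ℂ × ℝ × ℝ) IP ∞ b (Bnd_g σ ε δ 8 c (l, 0, 0)) := by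
      apply hb.loc
      · have := Bnd_norm hσ hε hδ.le 0
        simp only [norm_zero] at this
        linarith
      · rw [abs_mul, Bnd_abs hε, abs_mul, abs_of_pos (by norm_num : (0 : ℝ) < 8)]
        linarith
    exact IsLocalDiffeomorphAt.comp (hf := hg) (hg := hloc) ..
  obtain ⟨κ₃, m1, m2, m3, ⟨ε, hε, m4⟩, m5⟩ := bnd_twoR T ha hκ₁ heq₁ (eqS ε₁ 1 8 (1 / 4))
    (eqS ε₂ (-1) 8 (3 / 4)) (locS ε₁ 1 (1 / 4) s1 (by norm_num))
    (locS ε₂ (-1) (3 / 4) s2 (by norm_num)) (fun l hl => core₁ l hl.le σ)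
    (fun l hl => core₂ l hl.le σ) hp₁ hp₂
  -- the core of `κ₃`
  have hcore₃ : ∀ l t, κ₃ (l, 0, t) = a t (K (φ l)) := by
    intro l t
    rw [m2 l 0 t, m3, hcore]
  have hback : ∀ l t z s t', κ₃ (l, 0, t) = b (z, s, t') → K (φ l) = b (z, s, t' - t) := by
    intro l t z s t' h
    rw [hcore₃] at h
    have h1 : a (-t) (a t (K (φ l))) = K (φ l) := by
      rw [← ha.add, neg_add_cancel, ha.zero]
    rw [← h1, h, heqb, ← ha.add, heqb z s (t' - t)]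
    congr 1
    ring
  obtain ⟨hB1, hB2, hB3, hB4⟩ := Bnd_main_B ha hb heqb hσ s1 s2
  have hoff : ∀ l ∈ Bnd_U, ∀ v t, v ≠ 0 → ‖v‖ < 3 / 2 → ∀ l' t',
      Bnd_B b σ ε₁ ε₂ (l, v, t) ≠ κ₃ (l', 0, t') := by
    intro l hl v t hv0 hv l' t' he
    obtain ⟨δ, ε, c, k, hty⟩ := Bnd_ty_ex ε₁ ε₂ hl
    obtain ⟨hε, hδ⟩ := Bnd_ty_sgn s1 s2 hty
    obtain ⟨q1, q2, q3⟩ := Bnd_ty_box hσ s1 s2 hty hv
    rw [Bnd_ty_eq b σ hty] at he
    have h1 := hback l' t' _ _ _ he.symm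
    obtain ⟨m, u, hu, hu2, hz⟩ := Bnd_where hb hs hKp (by linarith) q3 h1
    have hz' : ∃ δ' : ℝ, |δ'| = 1 ∧ cj σ (δ + cj ε v / 2) = δ' := by
      rcases hz with ⟨hz, -⟩ | ⟨hz, -⟩
      · exact ⟨1, by norm_num, by rw [hz]; norm_num⟩
      · exact ⟨-1, by norm_num, by rw [hz]; norm_num⟩
    obtain ⟨δ', hδ', hz'⟩ := hz'
    have h2 : (δ : ℂ) + cj ε v / 2 = δ' := by
      rw [← RSG.cj_cj hσ (δ + cj ε v / 2), hz', cjr]
    have h3 : ((δ' - δ : ℝ) : ℂ) = cj ε v / 2 := by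
      push_cast
      linear_combination -h2
    have h4 : |δ' - δ| = ‖v‖ / 2 := by
      rw [← Real.norm_eq_abs, ← Complex.norm_real, h3, norm_div, RSG.cj_norm hε]
      simp
    have h5 : δ' = δ := by
      rcases eq_or_eq_neg_of_abs_eq (hδ'.trans (by norm_num : (1 : ℝ) = 1)) with h | h <;>
        rcases eq_or_eq_neg_of_abs_eq (hδ.trans (by norm_num : (1 : ℝ) = 1)) with h' | h' <;>
        rw [h, h'] at h4 ⊢ <;> norm_num at h4
      · linarith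
      · linarith
    rw [h5, sub_self, abs_zero] at h4
    apply hv0
    have : ‖v‖ = 0 := by linarith
    exact norm_eq_zero.1 this
  have hgerm : ∀ l ∈ Bnd_U, ∀ v t, ‖v‖ ≤ ε → κ₃ (l, v, t) = Bnd_B b σ ε₁ ε₂ (l, v, t) := by
    rintro l ⟨k, hk | hk⟩ v t hv
    · rw [Bnd_B1 b σ ε₁ ε₂ hk, ← (m4 (l - k) v t hv).1 (by
        rw [show l - k - 1 / 4 = l - 1 / 4 - k by ring]; exact hk.le)]
      have := Bnd_int (f := fun l => κ₃ (l, v, t)) (fun l => m1.perl l v t) (l - k) k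
      simp only [sub_add_cancel] at this
      exact this
    · rw [Bnd_B2 b σ ε₁ ε₂ hk, ← (m4 (l - k) v t hv).2 (by
        rw [show l - k - 3 / 4 = l - 3 / 4 - k by ring]; exact hk.le)]
      have := Bnd_int (f := fun l => κ₃ (l, v, t)) (fun l => m1.perl l v t) (l - k) k
      simp only [sub_add_cancel] at this
      exact this
  have hKF : ∀ l, l ∉ Bnd_U → ∀ t, κ₃ (l, 0, t) ∉ Fc ∪ Bnd_S b := by
    intro l hl t
    rintro (h | ⟨z, s, t', hz, hs', h⟩)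
    · rw [hcore₃] at h
      obtain ⟨y, k, hy, hy2⟩ := Bnd_out f2 hm hm1 hm2 f4 f5 hl
      rw [hy, Bnd_int hKp] at h
      exact hF y hy2 t h
    · have h1 := hback l t _ _ _ h
      obtain ⟨m, u, hu, hu2, hz⟩ := Bnd_where hb hs hKp (by linarith) (by linarith) h1
      have hu3 : |u| ≤ 1 / 2 := hu2 ▸ hs'
      have hu4 : |u / 8| ≤ 1 / 16 := by
        rw [abs_div, abs_of_pos (by norm_num : (0 : ℝ) < 8)]
        linarith
      have e8 : 8 * (u / 8) = u := by ring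
      rcases hz with ⟨-, hz⟩ | ⟨-, hz⟩
      · have h2 := f4 (u / 8) (hu4.trans (by norm_num))
        rw [e8] at h2
        rw [← h2, ← Bnd_phi_int f2] at hz
        have h3 := hm.injective hz
        apply hl
        refine ⟨m, Or.inl ?_⟩
        rw [h3, show 1 / 4 + u / 8 + (m : ℝ) - 1 / 4 - m = u / 8 by ring]
        linarith
      · have h2 := f5 (u / 8) (hu4.trans (by norm_num))
        rw [e8] at h2
        rw [← h2, ← Bnd_phi_int f2] at hz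
        have h3 := hm.injective hz
        apply hl
        refine ⟨m, Or.inr ?_⟩
        rw [h3, show 3 / 4 + u / 8 + (m : ℝ) - 3 / 4 - m = u / 8 by ring]
        linarith
  obtain ⟨κ, n1, n2, n3, n4, n5, n6, n7⟩ := adapt_glueR T ha m1 m2 hB1 hB2 Bnd_U_open Bnd_U_per
    Bnd_s_smooth Bnd_s_per (fun l => ⟨CSG.stp_nonneg _ _ _, CSG.stp_le_one _ _ _⟩) Bnd_tsupp
    (r := 3 / 2) (by norm_num) hB3 hB4 hε hgerm hoff (hFc.union (Bnd_S_closed hb)) hKF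
  -- the windows
  have win₁ : ∀ l v t, |l| < 1 / 16 → ‖v‖ < 1 →
      κ (1 / 4 + l, v, t) = b (cj σ (1 + cj ε₁ v / 2), ε₁ * (8 * l), t) := by
    intro l v t hl hv
    have hk : |1 / 4 + l - 1 / 4 - ((0 : ℤ) : ℝ)| < 11 / 128 := by
      rw [show 1 / 4 + l - 1 / 4 - ((0 : ℤ) : ℝ) = l by push_cast; ring]
      linarith
    rw [n4 _ v t (Bnd_s_one ⟨0, Or.inl (by
      rw [show 1 / 4 + l - 1 / 4 - ((0 : ℤ) : ℝ) = l by push_cast; ring]; exact hl.le)⟩) hv,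
      Bnd_B1 b σ ε₁ ε₂ hk]
    simp only [strand, COR.refl]
    rw [show 1 / 4 + l - ((0 : ℤ) : ℝ) - 1 / 4 = l by push_cast; ring]
    norm_num
  have win₂ : ∀ l v t, |l| < 1 / 16 → ‖v‖ < 1 →
      κ (3 / 4 + l, v, t) = b (cj σ (-1 + cj ε₂ v / 2), ε₂ * (8 * l), t) := by
    intro l v t hl hv
    have hk : |3 / 4 + l - 3 / 4 - ((0 : ℤ) : ℝ)| < 11 / 128 := by
      rw [show 3 / 4 + l - 3 / 4 - ((0 : ℤ) : ℝ) = l by push_cast; ring]
      linarith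
    rw [n4 _ v t (Bnd_s_one ⟨0, Or.inr (by
      rw [show 3 / 4 + l - 3 / 4 - ((0 : ℤ) : ℝ) = l by push_cast; ring]; exact hl.le)⟩) hv,
      Bnd_B2 b σ ε₁ ε₂ hk]
    simp only [strand, COR.refl]
    rw [show 3 / 4 + l - ((0 : ℤ) : ℝ) - 3 / 4 = l by push_cast; ring]
    norm_num
  -- over the arcs, outside the windows
  have hmid : ∀ l v t, ‖v‖ < 1 → OutW l → l ∈ Bnd_U → ∃ (z : ℂ) (s : ℝ), ‖z‖ < 4 ∧ 1 / 2 ≤ |s| ∧
      |s| < 1 ∧ κ (l, v, t) = b (z, s, t) := by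
    intro l v t hv ho hl
    obtain ⟨v', hv', he⟩ := n5 l hl v t hv
    obtain ⟨δ, ε, c, k, hty⟩ := Bnd_ty_ex ε₁ ε₂ hl
    obtain ⟨q1, q2, q3⟩ := Bnd_ty_box hσ s1 s2 hty hv'
    rw [Bnd_ty_eq b σ hty] at he
    refine ⟨_, _, ?_, ?_, q3, he⟩
    · linarith
    · rw [q2]
      have : 1 / 16 ≤ |l - c - k| := by
        rcases hty.1 with ⟨-, -, rfl⟩ | ⟨-, -, rfl⟩
        · exact (ho k).1
        · exact (ho k).2
      linarith
  refine ⟨κ, φ, σ, hσ, n2, ?_, f1, f2, f3, ?_, fun u hu => f4 u (hu.trans (by norm_num)),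
    fun u hu => f5 u (hu.trans (by norm_num)), ?_, ?_⟩
  · refine ⟨n1, ⟨?_, ?_, ?_⟩, s1, s2, ?_, ?_, ?_⟩
    · intro z s t
      exact hb.per _ _ _
    · intro z s t hz hs'
      have hg : IsLocalDiffeomorphAt 𝓘(ℝ, ℂ × ℝ × ℝ) 𝓘(ℝ, ℂ × ℝ × ℝ) ∞
          (fun q : ℂ × ℝ × ℝ => ((cj σ q.1, q.2.1 / 2, q.2.2) : ℂ × ℝ × ℝ)) (z, s, t) := by
        have hc1 := RSG.cj_smooth σ
        refine RSG.ld_two (g := fun q : ℂ × ℝ × ℝ => ((cj σ q.1, 2 * q.2.1, q.2.2) : ℂ × ℝ × ℝ))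
          (Eventually.of_forall fun y => ?_) (Eventually.of_forall fun y => ?_)
          (Eventually.of_forall fun y => ?_) (Eventually.of_forall fun y => ?_)
        · apply ContDiffAt.contMDiffAt
          apply ContDiff.contDiffAt
          fun_prop
        · apply ContDiffAt.contMDiffAt
          apply ContDiff.contDiffAt
          fun_prop
        · obtain ⟨z, s, t⟩ := y
          simp only
          rw [RSG.cj_cj hσ, mul_div_cancel₀ _ (by norm_num : (2 : ℝ) ≠ 0)]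
        · obtain ⟨z, s, t⟩ := y
          simp only
          rw [RSG.cj_cj hσ, mul_div_cancel_left₀ _ (by norm_num : (2 : ℝ) ≠ 0)]
      have hloc : IsLocalDiffeomorphAt 𝓘(ℝ, ℂ × ℝ × ℝ) IP ∞ b
          ((fun q : ℂ × ℝ × ℝ => ((cj σ q.1, q.2.1 / 2, q.2.2) : ℂ × ℝ × ℝ)) (z, s, t)) := by
        apply hb.loc
        · simp only; rw [RSG.cj_norm hσ]; linarith
        · simp only; rw [abs_div, abs_of_pos (by norm_num : (0 : ℝ) < 2)]; linarith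
      exact IsLocalDiffeomorphAt.comp (hf := hg) (hg := hloc) ..
    · intro z s t z' s' t' hz hs' hz' hs'' h
      obtain ⟨r1, r2, r3⟩ := hb.inj _ _ _ _ _ _ (by rw [RSG.cj_norm hσ]; linarith)
        (by rw [abs_div, abs_of_pos (by norm_num : (0 : ℝ) < 2)]; linarith)
        (by rw [RSG.cj_norm hσ]; linarith)
        (by rw [abs_div, abs_of_pos (by norm_num : (0 : ℝ) < 2)]; linarith) h
      refine ⟨?_, by linarith, r3⟩
      rw [← RSG.cj_cj hσ z, r1, RSG.cj_cj hσ]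
    · intro l v t hl hv
      rw [win₁ l v t hl hv]
      simp only [half]
      congr 3
      ring
    · intro l v t hl hv
      rw [win₂ l v t hl hv]
      simp only [half]
      congr 3
      ring
    · intro l v t hv ho z s t' hz hs' he
      by_cases hl : l ∈ Bnd_U
      · obtain ⟨z', s'', p1, p2, p3, p4⟩ := hmid l v t hv ho hl
        rw [p4] at he
        have := hb.inj _ _ _ _ _ _ (by linarith) p3 (by rw [RSG.cj_norm hσ]; linarith)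
          (by rw [abs_div, abs_of_pos (by norm_num : (0 : ℝ) < 2)]; linarith) he
        rw [this.2.1, abs_div, abs_of_pos (by norm_num : (0 : ℝ) < 2)] at p2
        linarith
      · apply n6 l hl v t hv
        right
        refine ⟨cj σ z, s / 2, t', ?_, ?_, he⟩
        · rw [RSG.cj_norm hσ]; exact hz.le
        · rw [abs_div, abs_of_pos (by norm_num : (0 : ℝ) < 2)]; linarith
  · intro l
    rw [n3, hcore₃, ha.zero]
  · intro l v t hv ho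
    by_cases hl : l ∈ Bnd_U
    · obtain ⟨z', s'', p1, p2, p3, p4⟩ := hmid l v t hv ho hl
      exact Or.inr ⟨z', s'', t, p1, p2, p3, p4⟩
    · left
      intro h
      exact n6 l hl v t hv (Or.inl h)
  · exact T.trans (T.rep hκ₀ f1 f2 f3) (T.trans m5 n7)


end

end Pool.Agent.NHW
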