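import Pool.Agent.NHW.Hmc
import Pool.Agent.NHB.Cen
import Pool.Agent.NHB.StrN
import Pool.Agent.NHB.FouN
import Pool.Agent.COR.Ger

/-!
# NHW/Cen: diffeomorphisms of `N` with compact support which preserve free homotopy classes
-/

open scoped Manifold ContDiff Topology
open Set Filter
open Complex (I)
open Pool.Agent.RSG (E3 E4 S4 ex cj Thick)
open Pool.Agent.RBM (ThickT TwinP OnT Box Bundle frc)
open Pool.Agent.COR (Equi EquiB)
open Pool.Agent.RBN (IN circ prd pb)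
open Pool.Agent.NHP (E Cht Push TubesN LEqN core)
open Pool.Agent.NHB (Emb rot tims tims_ld tims_rot push_ld StrN_csmooth)

namespace Pool.Agent.NHW

section
variable {N : Type*} [TopologicalSpace N] [ChartedSpace E3 N]

theorem tims_csup {F : Equiv.Perm N} (h : CSup F) : CSup (tims F) := by
  obtain ⟨C, hC, hF⟩ := h
  refine ⟨C ×ˢ univ, hC.prod isCompact_univ, fun p hp => ?_⟩
  have h1 : p.1 ∉ C := fun hp1 => hp ⟨hp1, mem_univ _⟩
  exact Prod.ext (hF p.1 h1) rfl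

omit [ChartedSpace E3 N] in
theorem csup_symm {F : Equiv.Perm N} (h : CSup F) : CSup F.symm := by
  obtain ⟨C, hC, hF⟩ := h
  refine ⟨C, hC, fun p hp => ?_⟩
  rw [Equiv.symm_apply_eq, hF p hp]

/-- the map preserves free homotopy classes of closed curves -/
def HPerm (F : N → N) : Prop := ∀ c : ℝ → N, Continuous c → (∀ l, c (l + 1) = c l) → HmC c fun l => F (c l)

omit [ChartedSpace E3 N] in
theorem hPerm_symm {F : Equiv.Perm N} (hF : Continuous F.symm) (h : HPerm F) : HPerm F.symm := by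
  intro c hc hp
  have h1 := h (fun l => F.symm (c l)) (hF.comp hc) (fun l => by rw [hp])
  have e : (fun l => F (F.symm (c l))) = c := funext fun l => F.apply_symm_apply (c l)
  rw [e] at h1
  exact h1.symm

theorem core_per {κ : ℝ × ℂ × ℝ → N × Circle} (hκ : ThickT IN κ) {c : ℝ → N}
    (hc : ∀ l, κ (l, 0, 0) = (c l, 1)) : ∀ l, c (l + 1) = c l := by
  intro l
  have h1 := hκ.perl l 0 0
  rw [hc, hc] at h1
  exact (Prod.ext_iff.1 h1).1

variable {R : (ℝ × ℂ × ℝ → N × Circle) → (ℝ × ℂ × ℝ → N × Circle) → Prop}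

theorem isC_map [T2Space N] (T : Tor IN R) {κ₀ : ℝ × ℂ × ℝ → N × Circle} {c₀ : ℝ → N} {K : Set N} {F : Equiv.Perm N}
    (hF : ∀ p, IsLocalDiffeomorphAt (𝓡 3) (𝓡 3) ∞ F p) (hC : CSup F) (hH : HPerm F) (hK : IsC R κ₀ c₀ K) :
    IsC R κ₀ c₀ (F '' K) := by
  obtain ⟨c, hr, hh, κ, hT, he, hk, hκ⟩ := hK
  refine ⟨fun l => F (c l), ?_, ?_, fun q => tims F (κ q), COR.ThickT_diffeo (tims F) (tims_ld hF) hT, ?_, ?_, ?_⟩
  · rw [← hr]
    exact range_comp F c
  · exact hh.trans (hH c (StrN_csmooth hT hk).continuous (core_per hT hk))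
  · intro l v t
    show tims F (κ (l, v, t)) = rot t (tims F (κ (l, v, 0)))
    rw [he l v t, tims_rot]
  · intro l
    show tims F (κ (l, 0, 0)) = (F (c l), 1)
    rw [hk]
    rfl
  · exact T.trans hκ (T.diffeo (tims F) (tims_ld hF) (tims_csup hC))

theorem isC_map_iff [T2Space N] (T : Tor IN R) {κ₀ : ℝ × ℂ × ℝ → N × Circle} {c₀ : ℝ → N} {K : Set N} {F : Equiv.Perm N}
    (hF : ∀ p, IsLocalDiffeomorphAt (𝓡 3) (𝓡 3) ∞ F p) (hC : CSup F) (hH : HPerm F) :
    IsC R κ₀ c₀ K ↔ IsC R κ₀ c₀ (F '' K) := by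
  refine ⟨isC_map T hF hC hH, fun h => ?_⟩
  have h0 : ∀ p, IsLocalDiffeomorphAt (𝓡 3) (𝓡 3) ∞ F.symm p := fun p => RBN.ld_symm hF p
  have h2 : Continuous F.symm := continuous_iff_continuousAt.2 fun p => CSG.ld_continuousAt (h0 p)
  have h1 := isC_map T (F := F.symm) h0 (csup_symm hC) (hPerm_symm h2 hH) h
  rwa [← image_comp, show (F.symm ∘ F : N → N) = id from funext fun x => Equiv.symm_apply_apply F x,
    image_id] at h1

/-- the diffusion of a push -/
theorem isC_push [T2Space N] (T : Tor IN R) {κ₀ : ℝ × ℂ × ℝ → N × Circle} {c₀ : ℝ → N} {K O : Set N}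
    {V : ℝ → Equiv.Perm N} (hV : Push O V) : IsC R κ₀ c₀ K ↔ IsC R κ₀ c₀ (V 1 '' K) := by
  refine isC_map_iff T (push_ld hV 1) ?_ fun c hc hp => hmC_push hV hc hp
  obtain ⟨C, hC, -, h⟩ := hV.supp
  exact ⟨C, hC, fun p hp => h 1 p hp⟩

/-- a permutation of the chart, extended -/
theorem exists_extW [T2Space N] {β : E → N} (hβ : Emb β) {Ψ : Equiv.Perm E} (hΨ : ISO.Move ⊥ univ Ψ) :
    ∃ F : Equiv.Perm N, (∀ p, IsLocalDiffeomorphAt (𝓡 3) (𝓡 3) ∞ F p) ∧ (∀ q, F (β q) = β (Ψ q)) ∧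
      (∀ p, p ∉ range β → F p = p) ∧ CSup F ∧ HPerm F := by
  obtain ⟨F, h1, h2, h3⟩ := NHB.exists_ext hβ hΨ
  obtain ⟨C, hC, -, hC2⟩ := hΨ.supp
  have hid : ∀ q, q ∉ C → Ψ q = q := by
    intro q hq
    refine hC2 q fun m hm => ?_
    have h : m = 0 := hm
    rwa [h, add_zero]
  have hβc : Continuous β := continuous_iff_continuousAt.2 fun q => CSG.ld_continuousAt (hβ.loc q)
  refine ⟨F, h1, h2, h3, ⟨β '' C, hC.image hβc, fun p hp => ?_⟩, fun c hc hp => ?_⟩
  · by_cases hp2 : p ∈ range β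
    · obtain ⟨q, rfl⟩ := hp2
      rw [h2, hid q fun hq => hp ⟨q, hq, rfl⟩]
    · exact h3 p hp2
  · refine hmC_local (B := β) (G := fun s q => β ((1 - s) • q + s • Ψ q)) (S := univ) (C := C) hβ ?_ hC ?_ ?_ hc hp
      (fun _ _ _ => mem_univ _) ?_ ?_
    · refine hβc.comp ?_
      have h4 : Continuous fun p : ℝ × E => Ψ p.2 := hΨ.smooth.continuous.comp continuous_snd
      exact ((continuous_const.sub continuous_fst).smul continuous_snd).add (continuous_fst.smul h4)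
    · intro q _
      show β ((1 - (0 : ℝ)) • q + (0 : ℝ) • Ψ q) = β q
      rw [sub_zero, one_smul, zero_smul, add_zero]
    · intro s q _ hq
      show β ((1 - s) • q + s • Ψ q) = β q
      rw [hid q hq, ← add_smul, sub_add_cancel, one_smul]
    · intro l q hq
      show F (c l) = β ((1 - (1 : ℝ)) • q + (1 : ℝ) • Ψ q)
      rw [hq, h2, sub_self, one_smul, zero_smul, zero_add]
    · intro l hl
      exact h3 _ hl

end

end Pool.Agent.NHW
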