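import Pool.Agent.NHW.Bnd
import Pool.Agent.RBM.Rm
import Pool.Agent.COR.Rmc
import Pool.Agent.RBN.Rib

/-!
# NHW/Fcq: the 4-move for carried curves in an oriented 4-manifold `P`, with an abstract relation
-/

open scoped Manifold ContDiff Topology
open Set Filter
open Complex (I)
open Pool.Agent.CSG (stp)
open Pool.Agent.RSG (E3 E4 S4 ex cj)
open Pool.Agent.RBM (ThickT TwinP OnT Box Bundle frc MsDo)
open Pool.Agent.COR (Equi EquiB TwoStrands half)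
open Pool.Agent.NHB (OrP)

namespace Pool.Agent.NHW

section
variable {EP : Type*} [NormedAddCommGroup EP] [NormedSpace ℝ EP] {HP : Type*} [TopologicalSpace HP]
  {IP : ModelWithCorners ℝ EP HP} {P : Type*} [TopologicalSpace P] [ChartedSpace HP P]

/-- the 4-move for the curve `K` -/
theorem four_coreR [T2Space P] {R : (ℝ × ℂ × ℝ → P) → (ℝ × ℂ × ℝ → P) → Prop} (T : Tor IP R) {J : (ℝ × ℂ × ℝ → P) → ℝ × ℂ × ℝ → ℝ} (hJ : OrP IP J) {a : ℝ → P → P}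
    (ha : PTH.Act IP a) {K : ℝ → P} {b : ℂ × ℝ × ℝ → P} (hb : Box IP b 5) (heqb : EquiB a b) {f₁ f₂ : ℝ → ℝ}
    {ε₁ ε₂ : ℝ} (hs : TwoStrands b K f₁ f₂ ε₁ ε₂) {o : ℝ} (ho : o = 1 ∨ o = -1) :
    ∃ M : Equiv.Perm P, RBM.IsM 4 (half 1 b) (MsDo o) M ∧
      ∀ κ₀ : ℝ × ℂ × ℝ → P, ThickT IP κ₀ → Equi a κ₀ → (∀ l, κ₀ (l, 0, 0) = K l) →
        ∃ κ' : ℝ × ℂ × ℝ → P, ThickT IP κ' ∧ Equi a κ' ∧ (∀ l, κ' (l, 0, 0) = M (K l)) ∧
          R κ₀ κ' := by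
  have hbox : Box IP (half 1 b) 4 := COR.Rmc_half hb
  obtain ⟨La, R, hLa, hMs⟩ := RBM.exists_LaDo ho
  obtain ⟨M, hM⟩ := RBM.exists_M hbox (r' := 39 / 10) (by norm_num) hMs
  refine ⟨M, hM, ?_⟩
  intro κ₀ hκ₀ heq₀ hK₀
  obtain ⟨κ, φ, σ, hσ, heqκ, hBu, hφ, hφ1, hφ', hcore, -, -, -, htwin⟩ :=
    exists_bundleR T hJ ha hκ₀ heq₀ hK₀ hb heqb hs (Fc := ∅) isClosed_empty (fun l hl t h => h)
  have heqh : EquiB a (half 1 b) := fun z s t => heqb (cj 1 z) (s / 2) t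
  have hrb : COR.refl σ (half 1 b) = half σ b := by
    funext q
    show b (cj 1 (cj σ q.1), q.2.1 / 2, q.2.2) = b (cj σ q.1, q.2.1 / 2, q.2.2)
    rw [COR.Rmc_cj1]
  have hM' : RBM.IsM 4 (half σ b) (MsDo (σ * o)) M := by
    rw [← hrb]
    exact COR.Rmc_refl hσ (fun y s => COR.Rmc_MsDo o hσ y s) hM
  have ho' := COR.Rmc_sign hσ ho
  obtain ⟨La', R', hLa', hMs'⟩ := RBM.exists_LaDo ho'
  have hth := RBM.thick_M (r' := 39 / 10) hBu (RBM.pieces_self hBu) (by norm_num) hMs' hM'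
  obtain ⟨ψ, hψ, hψ1, hψ', hinv⟩ := COR.Rmc_inv hφ hφ1 hφ'
  have hth2 : ThickT IP (fun q : ℝ × ℂ × ℝ => M (κ (ψ q.1, q.2))) := COR.thick_rep hth hψ hψ1 hψ'
  refine ⟨fun q => M (κ (ψ q.1, q.2)), hth2, ?_, ?_, ?_⟩
  · intro l v t
    show M (κ (ψ l, v, t)) = a t (M (κ (ψ l, v, 0)))
    rw [heqκ, COR.Rmc_equi ha heqh hM t]
  · intro l
    show M (κ (ψ l, 0, 0)) = M (K l)
    rw [hcore, hinv]
  · exact T.trans (T.trans htwin (T.four hBu ho' hM')) (T.rep hth hψ hψ1 hψ')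

end

end Pool.Agent.NHW
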