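import Pool.Agent.NHW.Rel

/-!
# NHW/Hmc: free homotopies of closed curves
-/

open scoped Manifold ContDiff Topology
open Set Filter
open Pool.Agent.RSG (E3)
open Pool.Agent.NHB (Emb)
open Pool.Agent.NHP (E Push)

namespace Pool.Agent.NHW

section
variable {N : Type*} [TopologicalSpace N]

theorem HmC.refl {c : ℝ → N} (hc : Continuous c) (hp : ∀ l, c (l + 1) = c l) : HmC c c :=
  ⟨fun q => c q.2, hc.comp continuous_snd, fun _ l => hp l, fun _ => rfl, fun _ => rfl⟩

theorem HmC.symm {c c' : ℝ → N} (h : HmC c c') : HmC c' c := by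
  obtain ⟨H, h1, h2, h3, h4⟩ := h
  refine ⟨fun q => H (1 - q.1, q.2), h1.comp (by fun_prop), fun s l => h2 _ l, fun l => ?_, fun l => ?_⟩
  · show H (1 - 0, l) = _
    rw [sub_zero, h4]
  · show H (1 - 1, l) = _
    rw [sub_self, h3]

theorem HmC.trans {c c' c'' : ℝ → N} (h : HmC c c') (h' : HmC c' c'') : HmC c c'' := by
  obtain ⟨H, h1, h2, h3, h4⟩ := h
  obtain ⟨K, k1, k2, k3, k4⟩ := h'
  refine ⟨fun q => if q.1 ≤ 1 / 2 then H (2 * q.1, q.2) else K (2 * q.1 - 1, q.2), ?_, ?_, ?_, ?_⟩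
  · refine Continuous.if_le (h1.comp (by fun_prop)) (k1.comp (by fun_prop)) continuous_fst continuous_const ?_
    rintro ⟨s, l⟩ hs
    have hs : s = 1 / 2 := hs
    subst hs
    show H (2 * (1 / 2), l) = K (2 * (1 / 2) - 1, l)
    rw [show (2 : ℝ) * (1 / 2) = 1 by norm_num, sub_self, h4, k3]
  · intro s l
    show (if s ≤ 1 / 2 then H (2 * s, l + 1) else K (2 * s - 1, l + 1)) =
      if s ≤ 1 / 2 then H (2 * s, l) else K (2 * s - 1, l)
    rw [h2, k2]
  · intro l
    show (if (0 : ℝ) ≤ 1 / 2 then H (2 * 0, l) else K (2 * 0 - 1, l)) = c l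
    rw [if_pos (by norm_num), mul_zero, h3]
  · intro l
    show (if (1 : ℝ) ≤ 1 / 2 then H (2 * 1, l) else K (2 * 1 - 1, l)) = c'' l
    rw [if_neg (by norm_num), show (2 : ℝ) * 1 - 1 = 1 by norm_num, k4]

/-- reparametrisation -/
theorem hmC_rep {c : ℝ → N} (hc : Continuous c) (hp : ∀ l, c (l + 1) = c l) {φ : ℝ → ℝ} (hφ : Continuous φ)
    (hφ1 : ∀ l, φ (l + 1) = φ l + 1) : HmC c fun l => c (φ l) := by
  refine ⟨fun q => c ((1 - q.1) * q.2 + q.1 * φ q.2), hc.comp ?_, ?_, ?_, ?_⟩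
  · exact ((continuous_const.sub continuous_fst).mul continuous_snd).add (continuous_fst.mul (hφ.comp continuous_snd))
  · intro s l
    show c ((1 - s) * (l + 1) + s * φ (l + 1)) = c ((1 - s) * l + s * φ l)
    rw [hφ1, ← hp ((1 - s) * l + s * φ l)]
    congr 1
    ring
  · intro l
    show c ((1 - 0) * l + 0 * φ l) = c l
    congr 1
    ring
  · intro l
    show c ((1 - 1) * l + 1 * φ l) = c (φ l)
    congr 1
    ring

end

section
variable {N : Type*} [TopologicalSpace N] [ChartedSpace E3 N]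

/-- a homotopy in a chart -/
theorem hmC_local [T2Space N] {B : E → N} (hB : Emb B) {G : ℝ → E → N} (hG : Continuous fun p : ℝ × E => G p.1 p.2)
    {S C : Set E} (hC : IsCompact C) (h0 : ∀ q ∈ S, G 0 q = B q) (hoff : ∀ s, ∀ q ∈ S, q ∉ C → G s q = B q)
    {c : ℝ → N} (hc : Continuous c) (hp : ∀ l, c (l + 1) = c l) (hS : ∀ l q, c l = B q → q ∈ S) {c' : ℝ → N}
    (h1 : ∀ l q, c l = B q → c' l = G 1 q) (h2 : ∀ l, c l ∉ range B → c' l = c l) : HmC c c' := by
  classical
  have hBc : Continuous B := continuous_iff_continuousAt.2 fun q => CSG.ld_continuousAt (hB.loc q)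
  obtain ⟨H, hH⟩ : ∃ H : ℝ × ℝ → N, H = fun p => if h : ∃ q, c p.2 = B q then G p.1 h.choose else c p.2 := ⟨_, rfl⟩
  have hin : ∀ s l q, c l = B q → H (s, l) = G s q := by
    intro s l q hq
    have h : ∃ q, c l = B q := ⟨q, hq⟩
    have e : h.choose = q := hB.inj (h.choose_spec.symm.trans hq)
    rw [hH]
    show (if h : ∃ q, c l = B q then G s h.choose else c l) = _
    rw [dif_pos h, e]
  have hout : ∀ s l, c l ∉ range B → H (s, l) = c l := by
    intro s l hl
    have h : ¬ ∃ q, c l = B q := fun ⟨q, hq⟩ => hl ⟨q, hq.symm⟩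
    rw [hH]
    show (if h : ∃ q, c l = B q then G s h.choose else c l) = _
    rw [dif_neg h]
  refine ⟨H, ?_, ?_, ?_, ?_⟩
  · rw [continuous_iff_continuousAt]
    rintro ⟨s₀, l₀⟩
    by_cases hl : c l₀ ∈ range B
    · obtain ⟨q₀, hq₀⟩ := hl
      have e1 : ∀ᶠ y in 𝓝 (B q₀), B ((hB.loc q₀).localInverse y) = y := (hB.loc q₀).localInverse_eventuallyEq_right
      have e2 : ContinuousAt (hB.loc q₀).localInverse (B q₀) :=
        CSG.ld_continuousAt (hB.loc q₀).localInverse_isLocalDiffeomorphAt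
      rw [hq₀] at e1 e2
      have e3 : ContinuousAt (fun p : ℝ × ℝ => (p.1, (hB.loc q₀).localInverse (c p.2))) (s₀, l₀) := by
        refine continuousAt_fst.prodMk ?_
        exact ContinuousAt.comp (g := (hB.loc q₀).localInverse) (f := fun p : ℝ × ℝ => c p.2) e2
          (hc.comp continuous_snd).continuousAt
      have e4 : ContinuousAt (fun p : ℝ × ℝ => G p.1 ((hB.loc q₀).localInverse (c p.2))) (s₀, l₀) :=
        ContinuousAt.comp (g := fun p : ℝ × E => G p.1 p.2)
          (f := fun p : ℝ × ℝ => (p.1, (hB.loc q₀).localInverse (c p.2))) hG.continuousAt e3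
      refine e4.congr ?_
      have e5 : ContinuousAt (fun p : ℝ × ℝ => c p.2) (s₀, l₀) := (hc.comp continuous_snd).continuousAt
      filter_upwards [e5.eventually e1] with p hp1
      exact (hin p.1 p.2 _ hp1.symm).symm
    · have hcl : IsClosed (B '' C) := (hC.image hBc).isClosed
      have h3 : c l₀ ∉ B '' C := fun ⟨q, _, hq⟩ => hl ⟨q, hq⟩
      have e5 : ContinuousAt (fun p : ℝ × ℝ => c p.2) (s₀, l₀) := (hc.comp continuous_snd).continuousAt
      refine e5.congr ?_
      filter_upwards [e5.eventually (hcl.isOpen_compl.mem_nhds h3)] with p hp1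
      by_cases hl2 : c p.2 ∈ range B
      · obtain ⟨q, hq⟩ := hl2
        rw [hin p.1 p.2 q hq.symm, hoff p.1 q (hS _ _ hq.symm) fun hqC => hp1 ⟨q, hqC, hq⟩, hq]
      · exact (hout p.1 p.2 hl2).symm
  · intro s l
    by_cases hl : c l ∈ range B
    · obtain ⟨q, hq⟩ := hl
      rw [hin s (l + 1) q (by rw [hp, hq]), hin s l q hq.symm]
    · rw [hout s l hl, hout s (l + 1) (by rwa [hp]), hp]
  · intro l
    by_cases hl : c l ∈ range B
    · obtain ⟨q, hq⟩ := hl
      rw [hin 0 l q hq.symm, h0 q (hS _ _ hq.symm), hq]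
    · exact hout 0 l hl
  · intro l
    by_cases hl : c l ∈ range B
    · obtain ⟨q, hq⟩ := hl
      rw [hin 1 l q hq.symm, h1 l q hq.symm]
    · rw [hout 1 l hl, h2 l hl]

/-- a push -/
theorem hmC_push {O : Set N} {V : ℝ → Equiv.Perm N} (hV : Push O V) {c : ℝ → N} (hc : Continuous c)
    (hp : ∀ l, c (l + 1) = c l) : HmC c fun l => V 1 (c l) := by
  refine ⟨fun q => V q.1 (c q.2), ?_, fun s l => ?_, fun l => ?_, fun l => rfl⟩
  · exact hV.smooth.continuous.comp (continuous_fst.prodMk (hc.comp continuous_snd))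
  · show V s (c (l + 1)) = V s (c l)
    rw [hp]
  · show V 0 (c l) = c l
    rw [hV.zero]
    rfl

end

end Pool.Agent.NHW
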