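import Pool.Agent.NHW.Rel
import Pool.Agent.NHB.AdI
import Pool.Agent.NHB.Fcq
import Pool.Agent.RBN.Rib
import Pool.Agent.KNH.HomM

/-!
# NHW/Ins: open embeddings

`ι : P → W` an injective local diffeomorphism, `W` Hausdorff: `R κ κ' := Same IW (ι ∘ κ) (ι ∘ κ')` satisfies `Tor`.
-/

open scoped Manifold ContDiff Topology
open Set Filter
open Complex (I)
open Pool.Agent.RSG (E3 E4 S4 ex cj Thick)
open Pool.Agent.RBM (ThickT TwinP OnT Box Bundle MsDo)
open Pool.Agent.NHB (Same same_diffeo same_germ same_rep four_same)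

namespace Pool.Agent.NHW

universe v

section
variable {EP : Type*} [NormedAddCommGroup EP] [NormedSpace ℝ EP] {HP : Type*} [TopologicalSpace HP]
  {IP : ModelWithCorners ℝ EP HP} {P : Type*} [TopologicalSpace P] [ChartedSpace HP P]
  {EW : Type*} [NormedAddCommGroup EW] [NormedSpace ℝ EW] {HW : Type*} [TopologicalSpace HW]
  (IW : ModelWithCorners ℝ EW HW) {W : Type*} [TopologicalSpace W] [ChartedSpace HW W]

/-- injective local diffeomorphism -/
structure OEmb (IP : ModelWithCorners ℝ EP HP) (ι : P → W) : Prop where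
  loc : ∀ p, IsLocalDiffeomorphAt IP IW ∞ ι p
  inj : Function.Injective ι

variable {IW} {ι : P → W}

/-- extension by the identity -/
noncomputable def xt (hι : Function.Injective ι) (F : Equiv.Perm P) : Equiv.Perm W := F.viaEmbedding ⟨ι, hι⟩

omit [TopologicalSpace P] [TopologicalSpace W] in
theorem xt_in (hι : Function.Injective ι) (F : Equiv.Perm P) (p : P) : xt hι F (ι p) = ι (F p) :=
  Equiv.Perm.viaEmbedding_apply F ⟨ι, hι⟩ p

omit [TopologicalSpace P] [TopologicalSpace W] in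
theorem xt_out (hι : Function.Injective ι) (F : Equiv.Perm P) {w : W} (hw : w ∉ range ι) : xt hι F w = w :=
  Equiv.Perm.viaEmbedding_apply_of_notMem F ⟨ι, hι⟩ w hw

theorem OEmb.cont (hι : OEmb IW IP ι) : Continuous ι :=
  continuous_iff_continuousAt.2 fun p => CSG.ld_continuousAt (hι.loc p)

theorem xt_ld [T2Space W] (hι : OEmb IW IP ι) {F : Equiv.Perm P} (hF : ∀ p, IsLocalDiffeomorphAt IP IP ∞ F p)
    (hC : CSup F) (w : W) : IsLocalDiffeomorphAt IW IW ∞ (xt hι.inj F) w := by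
  by_cases hw : w ∈ range ι
  · obtain ⟨p, rfl⟩ := hw
    refine CSG.ld_of_comp_left (I := IP) (J := IW) (K := IW) (f := ι) (g := xt hι.inj F) ?_ (hι.loc p)
    have e : (xt hι.inj F : W → W) ∘ ι = ι ∘ F := by
      funext q
      exact xt_in hι.inj F q
    rw [e]
    exact IsLocalDiffeomorphAt.comp (hf := hF p) (g := ι) (hg := hι.loc _) ..
  · obtain ⟨C, hC, hCF⟩ := hC
    have h1 : IsClosed (ι '' C) := (hC.image hι.cont).isClosed
    have h2 : w ∉ ι '' C := fun ⟨p, _, hp⟩ => hw ⟨p, hp⟩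
    refine CSG.ld_congr (CSG.ld_id w) ?_
    filter_upwards [h1.isOpen_compl.mem_nhds h2] with y hy
    show xt hι.inj F y = y
    by_cases hy2 : y ∈ range ι
    · obtain ⟨p, rfl⟩ := hy2
      rw [xt_in, hCF p fun hp => hy ⟨p, hp, rfl⟩]
    · exact xt_out hι.inj F hy2

theorem OEmb.thick (hι : OEmb IW IP ι) {κ : ℝ × ℂ × ℝ → P} (h : ThickT IP κ) : ThickT IW (ι ∘ κ) where
  perl l v t := congrArg ι (h.perl l v t)
  pert l v t := congrArg ι (h.pert l v t)
  loc l v t hv := IsLocalDiffeomorphAt.comp (hf := h.loc l v t hv) (g := ι) (hg := hι.loc _) ..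
  inj l v t l' v' t' hv hv' he := h.inj l v t l' v' t' hv hv' (hι.inj he)

theorem OEmb.box (hι : OEmb IW IP ι) {b : ℂ × ℝ × ℝ → P} {r : ℝ} (h : Box IP b r) : Box IW (ι ∘ b) r where
  per z s t := congrArg ι (h.per z s t)
  loc z s t hz hs := IsLocalDiffeomorphAt.comp (hf := h.loc z s t hz hs) (g := ι) (hg := hι.loc _) ..
  inj z s t z' s' t' hz hs hz' hs' he := h.inj z s t z' s' t' hz hs hz' hs' (hι.inj he)

theorem OEmb.bundle (hι : OEmb IW IP ι) {κ : ℝ × ℂ × ℝ → P} {b : ℂ × ℝ × ℝ → P} {ε₁ ε₂ : ℝ}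
    (h : Bundle IP κ b ε₁ ε₂) : Bundle IW (ι ∘ κ) (ι ∘ b) ε₁ ε₂ where
  thick := hι.thick h.thick
  box := hι.box h.box
  sign₁ := h.sign₁
  sign₂ := h.sign₂
  strand₁ l v t hl hv := congrArg ι (h.strand₁ l v t hl hv)
  strand₂ l v t hl hv := congrArg ι (h.strand₂ l v t hl hv)
  rest l v t hv hl z s t' hz hs he := h.rest l v t hv hl z s t' hz hs (hι.inj he)

omit [TopologicalSpace P] [TopologicalSpace W] in
theorem xt_isM (hι : Function.Injective ι) {d : ℂ × ℝ × ℝ → P} {r : ℝ} {Ms : ℂ × ℝ → ℂ} {M : Equiv.Perm P}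
    (h : RBM.IsM r d Ms M) : RBM.IsM r (ι ∘ d) Ms (xt hι M) where
  ball y s t hy hs := by
    show xt hι M (ι (d (y, s, t))) = ι (d (Ms (y, s), s, t))
    rw [xt_in, h.ball y s t hy hs]
  out w hw := by
    by_cases hw2 : w ∈ range ι
    · obtain ⟨p, rfl⟩ := hw2
      rw [xt_in, h.out p fun y s t hy hs he => hw y s t hy hs (congrArg ι he)]
    · exact xt_out hι M hw2

theorem OEmb.ribHom [T2Space W] (hι : OEmb IW IP ι) {κ κ' : ℝ × ℂ × ℝ → P} {b b' : ℂ × ℝ × ℝ → P} {ε₁ ε₂ : ℝ}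
    {τ : ℝ → ℝ} {δ : ℝ} {G : Equiv.Perm P} (h : RBH.RibHom IP κ κ' b b' ε₁ ε₂ τ δ G) (hG : CSup G) :
    RBH.RibHom IW (ι ∘ κ) (ι ∘ κ') (ι ∘ b) (ι ∘ b') ε₁ ε₂ τ δ (xt hι.inj G) where
  bun := hι.bundle h.bun
  bun' := hι.bundle h.bun'
  tau := h.tau
  pos := h.pos
  G_ld := xt_ld hι h.G_ld hG
  G_rest l v t hv hl := by
    show xt hι.inj G (ι (κ (l, v, t))) = ι (κ' (l, v, t))
    rw [xt_in, h.G_rest l v t hv hl]
  G_ends z s t hz hs hs' := by
    show xt hι.inj G (ι (b (z, s, t))) = ι (b' (z, s, t))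
    rw [xt_in, h.G_ends z s t hz hs hs']
  G_hole z s t hz hs ht := by
    show xt hι.inj G (ι (b (z, s, t))) = ι (b' (z, s, t))
    rw [xt_in, h.G_hole z s t hz hs ht]

/-- **The relation given by an open embedding.** -/
theorem tor_ins [T2Space W] (hι : OEmb IW IP ι) :
    Tor IP (fun κ κ' : ℝ × ℂ × ℝ → P => Same.{v} IW (ι ∘ κ) (ι ∘ κ')) where
  rfl' κ := Same.rfl' _
  symm h := h.symm
  trans h h' := h.trans h'
  diffeo := by
    intro κ F hF hC
    have h1 := same_diffeo.{v} (κ := ι ∘ κ) (xt hι.inj F) (xt_ld hι hF hC)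
    have e : (fun q => xt hι.inj F ((ι ∘ κ) q)) = ι ∘ fun q => F (κ q) := by
      funext q
      exact xt_in hι.inj F (κ q)
    rwa [e] at h1
  germ := by
    intro κ κ' η hη h h' he
    exact same_germ hη (hι.thick h) (hι.thick h') fun l v t hv => congrArg ι (he l v t hv)
  rep := by
    intro κ hκ φ hφ hφ1 hφ'
    exact same_rep (hι.thick hκ) hφ hφ1 hφ'
  four := by
    intro κ d ε₁ ε₂ h o ho M hM
    have h1 := four_same.{v} (hι.bundle h) ho (xt_isM hι.inj hM)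
    have e : (fun q => xt hι.inj M ((ι ∘ κ) q)) = ι ∘ fun q => M (κ q) := by
      funext q
      exact xt_in hι.inj M (κ q)
    rwa [e] at h1
  rib := by
    intro κ κ' b b' ε₁ ε₂ τ δ G h hG X _ _ _ n j
    have h1 := hι.ribHom h hG
    exact ⟨RBH.rbh h1 n j, RBH.rbh (RBN.ribHom_symm h1) n j⟩

end

end Pool.Agent.NHW
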