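import Pool.Agent.NHW.FouN
import Pool.Agent.NHB.RibN

/-!
# NHW/RibN: thinning, the ribbon homotopy; `IsC` is invariant under `LEqN`, with an abstract relation and the homotopy class of the core
-/

open scoped Manifold ContDiff Topology
open Set Filter
open Complex (I)
open Pool.Agent.CSG (stp)
open Pool.Agent.RSG (E3 E4 S4 ex cj Thick OnKnot IsRollGluck)
open Pool.Agent.RBM (ThickT TwinP OnT Box Bundle frc)
open Pool.Agent.COR (Equi EquiB TwoStrands half)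
open Pool.Agent.KNT (Dom Str Str2)
open Pool.Agent.KNH (Rr hr Ss Ss2 Rem swp swp_box swp_out HomM_half)
open Pool.Agent.RBN (IN circ prd pb circ_add circ_zero circ_int circ_eq circ_per circ_ld circ_smooth TubeHom ThinOK Mov)
open Pool.Agent.NHP (E Cht Push TubesN LEqN core)
open Pool.Agent.NHB (Emb rot rot_act pb_box pb_equiv exists_strands StrN_csmooth OrP str_eq bx bx_emb bx_dis thn thn_eq thn_ld thn_emb
  thn_norm bb Fam Mvp mvp_compact mvp_out mvp_dis mov_mvp fam_emb0 fam_emb1 fam_bx fam_rev rem_eq tube_bb thin_conj half_thn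
  rib_homN core_swapN emb_cont)

namespace Pool.Agent.NHW

section
variable {N : Type*} [TopologicalSpace N] [ChartedSpace E3 N] [T2Space N]

/-- the homotopy of the core under the ribbon homotopy -/
theorem swap_hom {β : ℝ → E → N} {Y : Set N} (h : Fam β Y) {w₀ : ℝ} (hw0 : 0 < w₀) (hw1 : w₀ ≤ 1)
    {σ ε₁ ε₂ : ℝ} (hσ : σ = 1 ∨ σ = -1) {κ : ℝ × ℂ × ℝ → N × Circle}
    (hb : Bundle IN κ (half σ (pb fun q => β 0 (thn w₀ q))) ε₁ ε₂)
    {c : ℝ → N} {φ : ℝ → ℝ} (hφ : Continuous φ) (hφ1 : ∀ l, φ (l + 1) = φ l + 1)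
    (hcore : ∀ l, κ (l, 0, 0) = (c (φ l), 1))
    (hc : range c = Y ∪ (fun q => β 0 (thn w₀ q)) '' Ss) (hcc : Continuous c) (hpc : ∀ l, c (l + 1) = c l) {c' : ℝ → N}
    (hcore' : ∀ l, swp (half σ (pb fun q => β 0 (thn w₀ q))) (half σ (pb fun q => β 1 (thn w₀ q))) κ (l, 0, 0) =
        (c' l, 1)) : HmC (fun l => c (φ l)) c' := by
  have i0 : (0 : ℝ) ∈ Icc (0 : ℝ) 1 := ⟨le_rfl, zero_le_one⟩
  have i1 : (1 : ℝ) ∈ Icc (0 : ℝ) 1 := ⟨zero_le_one, le_rfl⟩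
  have hE0 : Emb (fun q => β 0 (thn w₀ q)) := thn_emb (fam_emb0 h) hw0 hw1
  have hE1 : Emb (fun q => β 1 (thn w₀ q)) := thn_emb (fam_emb1 h) hw0 hw1
  have hbox : Box IN (half σ (pb fun q => β 0 (thn w₀ q))) 4 := hb.box
  have hbox' : Box IN (half σ (pb fun q => β 1 (thn w₀ q))) 4 := HomM_half (pb_box hE1 4) hσ
  have hthn : Continuous (thn w₀) := continuous_iff_continuousAt.2 fun q => CSG.ld_continuousAt (thn_ld hw0 hw1 q)
  have hclm : ∀ s : ℝ, max 0 (min 1 s) ∈ Icc (0 : ℝ) 1 := fun s =>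
    ⟨le_max_left _ _, max_le zero_le_one (min_le_left _ _)⟩
  have hSs : ∀ q ∈ Ss, ‖q.1‖ = 1 := by
    rintro q (h1 | h1) <;> rw [h1] <;> simp
  have hbv : ∀ (B : E → N) (z : ℂ) (s t : ℝ),
      half σ (pb B) (z, s, t) = (B (cj σ z, s / 2), circ t) := fun _ _ _ _ => rfl
  have hinS : ∀ l q, c (φ l) = β 0 (thn w₀ q) → q ∈ Ss := by
    intro l q hq
    have h1 : c (φ l) ∈ Y ∪ (fun q => β 0 (thn w₀ q)) '' Ss := by rw [← hc]; exact mem_range_self _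
    rw [hq] at h1
    rcases h1 with hy | ⟨q', hq', hy⟩
    · exact absurd hy (h.dis 0 i0 _)
    · rw [← hE0.inj hy]
      exact hq'
  refine hmC_local (B := fun q => β 0 (thn w₀ q)) (G := fun s q => β (max 0 (min 1 s)) (thn w₀ q)) (S := Ss)
    (C := Metric.closedBall (0 : ℂ) 1 ×ˢ Icc (-(1 / 8)) (1 / 8)) hE0 ?_ ((isCompact_closedBall _ _).prod isCompact_Icc)
    ?_ ?_ (hcc.comp hφ) (fun l => by show c (φ (l + 1)) = c (φ l); rw [hφ1, hpc]) hinS ?_ ?_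
  · rw [continuous_iff_continuousAt]
    rintro ⟨s, q⟩
    have h1 : ContinuousAt (fun p : ℝ × (ℂ × ℝ) => β p.1 p.2) (max 0 (min 1 s), thn w₀ q) :=
      (h.smooth _ (hclm s) _).continuousAt
    have h2 : Continuous fun p : ℝ × E => (max 0 (min 1 p.1), thn w₀ p.2) :=
      (continuous_const.max (continuous_const.min continuous_fst)).prodMk (hthn.comp continuous_snd)
    exact ContinuousAt.comp (g := fun p : ℝ × (ℂ × ℝ) => β p.1 p.2)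
      (f := fun p : ℝ × E => (max 0 (min 1 p.1), thn w₀ p.2)) h1 h2.continuousAt
  · intro q _
    show β (max 0 (min 1 0)) (thn w₀ q) = β 0 (thn w₀ q)
    norm_num
  · intro s q hq hqC
    refine h.ends _ (hclm s) _ ?_
    show 1 / 8 ≤ |q.2|
    by_contra hcon
    refine hqC ⟨?_, abs_le.1 (not_le.1 hcon).le⟩
    rw [mem_closedBall_zero_iff, hSs q hq]
  · intro l q hq
    have hq : c (φ l) = β 0 (thn w₀ q) := hq
    have hqS := hinS l q hq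
    show c' l = β (max 0 (min 1 1)) (thn w₀ q)
    have e1 : max (0 : ℝ) (min 1 1) = 1 := by norm_num
    rw [e1]
    have h3 := hcore' l
    rcases lt_or_ge |q.2| (1 / 2) with h2 | h2
    · have e3 : κ (l, 0, 0) = half σ (pb fun q => β 0 (thn w₀ q)) (cj σ q.1, 2 * q.2, 0) := by
        rw [hcore, hbv, RSG.cj_cj hσ, mul_div_cancel_left₀ _ (two_ne_zero' ℝ), circ_zero, hq]
      rw [swp_box hbox hbox' (by rw [RSG.cj_norm hσ, hSs q hqS]; norm_num) (by rw [abs_mul, abs_two]; linarith) e3,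
        hbv, RSG.cj_cj hσ, mul_div_cancel_left₀ _ (two_ne_zero' ℝ)] at h3
      exact (congrArg Prod.fst h3).symm
    · have h0 : ∀ (z : ℂ) (s t' : ℝ), ‖z‖ < 4 → |s| < 1 → κ (l, 0, 0) ≠ half σ (pb fun q => β 0 (thn w₀ q)) (z, s, t') := by
        intro z s t' hz hs he
        rw [hcore, hbv, hq] at he
        have e4 : q = (cj σ z, s / 2) := hE0.inj (congrArg Prod.fst he)
        rw [e4] at h2
        have h2 : 1 / 2 ≤ |s / 2| := h2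
        rw [abs_div, abs_two] at h2
        linarith
      rw [swp_out h0, hcore] at h3
      have e5 : c' l = c (φ l) := (congrArg Prod.fst h3).symm
      rw [e5, hq]
      exact (h.ends 1 i1 _ (by show 1 / 8 ≤ |q.2|; linarith)).symm
  · intro l hl
    have h3 := hcore' l
    have h0 : ∀ (z : ℂ) (s t' : ℝ), ‖z‖ < 4 → |s| < 1 → κ (l, 0, 0) ≠ half σ (pb fun q => β 0 (thn w₀ q)) (z, s, t') := by
      intro z s t' hz hs he
      rw [hcore, hbv] at he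
      exact hl ⟨(cj σ z, s / 2), (congrArg Prod.fst he).symm⟩
    rw [swp_out h0, hcore] at h3
    exact (congrArg Prod.fst h3).symm

theorem isC_thin {R : (ℝ × ℂ × ℝ → N × Circle) → (ℝ × ℂ × ℝ → N × Circle) → Prop} (T : Tor IN R) {κ₀ : ℝ × ℂ × ℝ → N × Circle} {c₀ : ℝ → N} {β : E → N} (hβ : Emb β)
    {Y : Set N} (hY : ∀ q, β q ∉ Y) {w₀ : ℝ} (h0 : 0 < w₀) (h1 : w₀ ≤ 1) :
    IsC R κ₀ c₀ (Y ∪ β '' Ss) ↔ IsC R κ₀ c₀ (Y ∪ (fun q => β (thn w₀ q)) '' Ss) := by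
  obtain ⟨Ψ, hΨ, hΨS⟩ := KNH.ThnM_move h0 h1
  obtain ⟨F, hF, hFβ, hFx, hFs, hFh⟩ := exists_extW hβ hΨ
  have e : F '' (Y ∪ β '' Ss) = Y ∪ (fun q => β (thn w₀ q)) '' Ss := by
    rw [image_union]
    congr 1
    · have : EqOn F id Y := by
        intro y hy
        apply hFx
        rintro ⟨q, rfl⟩
        exact hY q hy
      rw [this.image_eq, image_id]
    · rw [image_image]
      apply image_congr
      intro q hq
      rw [hFβ, hΨS q hq, thn_eq]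
  rw [← e]
  exact isC_map_iff T hF hFs hFh

theorem rib_stepN {R : (ℝ × ℂ × ℝ → N × Circle) → (ℝ × ℂ × ℝ → N × Circle) → Prop} (T : Tor IN R) {J : (ℝ × ℂ × ℝ → N × Circle) → ℝ × ℂ × ℝ → ℝ} (hJ : OrP IN J)
    {κ₀ : ℝ × ℂ × ℝ → N × Circle} {c₀ : ℝ → N} {β : ℝ → E → N}
    {Y : Set N} (h : Fam β Y) {w₀ δ : ℝ} (hw : ThinOK (bb β 1) w₀ δ)
    (hX : IsC R κ₀ c₀ (Y ∪ (fun q => β 0 (thn w₀ q)) '' Ss)) :
    IsC R κ₀ c₀ (Y ∪ (fun q => β 1 (thn w₀ q)) '' Ss) := by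
  obtain ⟨c, hc, hh, κ₁, hT₀, heq₀, hcore₀, hD₀⟩ := hX
  have i0 : (0 : ℝ) ∈ Icc (0 : ℝ) 1 := ⟨le_rfl, zero_le_one⟩
  have i1 : (1 : ℝ) ∈ Icc (0 : ℝ) 1 := ⟨zero_le_one, le_rfl⟩
  have hB₀ : Emb (fun q => β 0 (thn w₀ q)) := thn_emb (fam_emb0 h) hw.w_pos hw.w_le
  have hB₁ : Emb (fun q => β 1 (thn w₀ q)) := thn_emb (fam_emb1 h) hw.w_pos hw.w_le
  have hS : ∀ q, (∃ l, c l = β 0 (thn w₀ q)) ↔ q ∈ Ss := by
    intro q
    constructor
    · rintro ⟨l, hl⟩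
      have h1 : c l ∈ Y ∪ (fun q => β 0 (thn w₀ q)) '' Ss := hc ▸ mem_range_self l
      rw [hl] at h1
      rcases h1 with hy | ⟨q', hq', hq2⟩
      · exact absurd hy (h.dis 0 i0 _)
      · have h3 : q' = q := hB₀.inj hq2
        rwa [h3] at hq'
    · intro hq
      have h1 : β 0 (thn w₀ q) ∈ Y ∪ (fun q => β 0 (thn w₀ q)) '' Ss := Or.inr ⟨q, hq, rfl⟩
      rw [← hc] at h1
      exact h1
  obtain ⟨f₁, f₂, ε₁, ε₂, hts, hs1, hs2, hoff⟩ := exists_strands hT₀ hcore₀ hB₀ hS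
  have hoff' : ∀ l, (f₁ (1 / 2) ≤ l ∧ l ≤ f₂ (-(1 / 2))) ∨ (f₂ (1 / 2) ≤ l ∧ l ≤ f₁ (-(1 / 2)) + 1) →
      ∀ q, c l = β 0 (thn w₀ q) → 1 / 2 ≤ |q.2| :=
    fun l hl q hq => hoff (1 / 2) (by norm_num) l hl q.1 q.2 hq
  -- points of the knot
  have hpt : ∀ l, c l ∈ Y ∨ ∃ q ∈ Ss, β 0 (thn w₀ q) = c l := by
    intro l
    have h1 : c l ∈ Y ∪ (fun q => β 0 (thn w₀ q)) '' Ss := hc ▸ mem_range_self l
    exact h1
  let Fc : Set (N × Circle) :=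
    {p | p.1 ∈ Mvp β ∪ (fun q => β 1 (thn w₀ q)) '' {q | ‖q.1‖ ≤ 5 ∧ |q.2| ≤ 1 / 4}}
  have hQc : IsCompact {q : ℂ × ℝ | ‖q.1‖ ≤ 5 ∧ |q.2| ≤ 1 / 4} := by
    have h1 : {q : ℂ × ℝ | ‖q.1‖ ≤ 5 ∧ |q.2| ≤ 1 / 4} = Metric.closedBall (0 : ℂ) 5 ×ˢ Icc (-(1 / 4)) (1 / 4) := by
      ext q
      simp only [mem_ofPred_eq, mem_prod, Metric.mem_closedBall, dist_zero_right, mem_Icc, abs_le]
    rw [h1]
    exact (isCompact_closedBall _ _).prod isCompact_Icc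
  have hFc : IsClosed Fc := by
    have h1 : IsCompact (Mvp β ∪ (fun q => β 1 (thn w₀ q)) '' {q | ‖q.1‖ ≤ 5 ∧ |q.2| ≤ 1 / 4}) :=
      (mvp_compact h).union (hQc.image (emb_cont hB₁))
    exact h1.isClosed.preimage continuous_fst
  have hF : ∀ l, (f₁ (1 / 2) ≤ l ∧ l ≤ f₂ (-(1 / 2))) ∨ (f₂ (1 / 2) ≤ l ∧ l ≤ f₁ (-(1 / 2)) + 1) →
      ∀ t, rot t (c l, 1) ∉ Fc := by
    intro l hl t ht
    have hx : c l ∈ Mvp β ∪ (fun q => β 1 (thn w₀ q)) '' {q | ‖q.1‖ ≤ 5 ∧ |q.2| ≤ 1 / 4} := ht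
    rcases hpt l with h1 | ⟨q', hq2, h1⟩
    · rcases hx with hx | ⟨q, -, hq'⟩
      · exact mvp_dis h h1 hx
      · rw [← hq'] at h1
        exact h.dis 1 i1 _ h1
    · have h2 := hoff' l hl q' h1.symm
      rcases hx with hx | ⟨q, ⟨-, hq⟩, hq'⟩
      · rw [← h1] at hx
        exact mvp_out h (q := thn w₀ q') (by show 1 / 4 ≤ |q'.2|; linarith) hx
      · have h3 : β 1 (thn w₀ q') = β 0 (thn w₀ q') :=
          h.ends 1 i1 (thn w₀ q') (by show 1 / 8 ≤ |q'.2|; linarith)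
        have h4 : q = q' := hB₁.inj (by
          show β 1 (thn w₀ q) = β 1 (thn w₀ q')
          rw [h3, h1]
          exact hq')
        rw [h4] at hq
        linarith
  obtain ⟨κ, φ, σ, hσ, heq, hbun, hφs, hφ1, hφ', hcore, -, -, hrest, hTw⟩ :=
    exists_bundleR T hJ rot_act hT₀ heq₀ hcore₀ (pb_box hB₀ 5) (pb_equiv _) hts hFc hF
  have hwσ := thin_conj hw hσ
  obtain ⟨G, hG1, hG2, hG3⟩ := RBN.exists_hole (tube_bb h hσ) hwσ
  have hRH := rib_homN h hσ hwσ hbun (fun l v t hv hl => hrest l v t hv hl) hG1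
    (fun p hp => hG2 p fun hm => hp (mov_mvp hσ hm)) (by
      intro z s t hz hs ht
      rw [half_thn, half_thn]
      exact hG3 z s t hz hs ht)
  obtain ⟨heq', c', hc', hcore'⟩ := core_swapN h hw.w_pos hw.w_le hσ hbun heq hφs.continuous hφ1 hcore hc
  have hcc := (StrN_csmooth hT₀ hcore₀).continuous
  have hpc := core_per hT₀ hcore₀
  have hom := swap_hom h hw.w_pos hw.w_le hσ hbun hφs.continuous hφ1 hcore hc hcc hpc hcore'
  refine ⟨c', hc', hh.trans ((hmC_rep hcc hpc hφs.continuous hφ1).trans hom), _, hRH.bun'.thick, heq', hcore',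
    T.trans (T.trans hD₀ hTw) (T.rib hRH ?_)⟩
  exact ⟨Mvp β ×ˢ univ, (mvp_compact h).prod isCompact_univ, fun p hp => hG2 p fun hm => hp ⟨mov_mvp hσ hm, mem_univ _⟩⟩

theorem isC_rib {R : (ℝ × ℂ × ℝ → N × Circle) → (ℝ × ℂ × ℝ → N × Circle) → Prop} (T : Tor IN R) {J : (ℝ × ℂ × ℝ → N × Circle) → ℝ × ℂ × ℝ → ℝ} (hJ : OrP IN J)
    {κ₀ : ℝ × ℂ × ℝ → N × Circle} {c₀ : ℝ → N} {β : ℝ → E → N} {Y : Set N} (hf : Fam β Y)
    (h : IsC R κ₀ c₀ (Y ∪ β 0 '' Ss)) : IsC R κ₀ c₀ (Y ∪ β 1 '' Ss) := by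
  have i0 : (0 : ℝ) ∈ Icc (0 : ℝ) 1 := ⟨le_rfl, zero_le_one⟩
  have i1 : (1 : ℝ) ∈ Icc (0 : ℝ) 1 := ⟨zero_le_one, le_rfl⟩
  obtain ⟨w₀, δ, hw⟩ := RBN.exists_thin (tube_bb hf (σ := 1) (Or.inl rfl))
  have h1 := (isC_thin T (fam_emb0 hf) (hf.dis 0 i0) hw.w_pos hw.w_le).1 h
  have h2 := rib_stepN T hJ hf hw h1
  exact (isC_thin T (fam_emb1 hf) (hf.dis 1 i1) hw.w_pos hw.w_le).2 h2

theorem isC_rib_iff {R : (ℝ × ℂ × ℝ → N × Circle) → (ℝ × ℂ × ℝ → N × Circle) → Prop} (T : Tor IN R) {J : (ℝ × ℂ × ℝ → N × Circle) → ℝ × ℂ × ℝ → ℝ} (hJ : OrP IN J)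
    {κ₀ : ℝ × ℂ × ℝ → N × Circle} {c₀ : ℝ → N} {b : ℝ → E → N} (hb : TubesN b) {Z : Set N}
    (hZ : ∀ l ∈ Icc (0 : ℝ) 1, Disjoint Z (b l '' Dom)) :
    IsC R κ₀ c₀ (Z ∪ b 0 '' Str) ↔ IsC R κ₀ c₀ (Z ∪ b 1 '' Str) := by
  have hf := fam_bx hb hZ
  rw [str_eq, str_eq, rem_eq hb]
  refine ⟨isC_rib T hJ hf, fun h => ?_⟩
  have h1 := isC_rib T hJ (fam_rev hf) (κ₀ := κ₀) (c₀ := c₀)
  simp only [sub_zero, sub_self] at h1
  exact h1 h

/-- **`IsC` is invariant under the relation `LEqN`.** -/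
theorem isC_LEqN {R : (ℝ × ℂ × ℝ → N × Circle) → (ℝ × ℂ × ℝ → N × Circle) → Prop} (T : Tor IN R) {J : (ℝ × ℂ × ℝ → N × Circle) → ℝ × ℂ × ℝ → ℝ} (hJ : OrP IN J)
    {κ₀ : ℝ × ℂ × ℝ → N × Circle} {c₀ : ℝ → N} {K K' : Set N} (h : LEqN K K') : IsC R κ₀ c₀ K ↔ IsC R κ₀ c₀ K' := by
  induction h with
  | refl K => exact Iff.rfl
  | symm _ ih => exact ih.symm
  | trans _ _ ih1 ih2 => exact ih1.trans ih2
  | diff K hF => exact isC_push T hF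
  | four hb hZ => exact isC_four T hJ hb hZ
  | rib hb hZ => exact isC_rib_iff T hJ hb hZ

end

end Pool.Agent.NHW
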